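import Pool.Agent.Work.MP_27a5a0_lc.BR.Stmts

/-!
MP_27a5a0_lc, block BR, item Ac: the cost of an alternating cycle.
-/

set_option autoImplicit false

namespace Pool.Agent.UTSP.BR

open Finset Pool.Agent.UTSP

namespace IAc

theorem key {X : Type} (δ : X → X → ℝ) (P Q : X → Prop) (W : ℝ)
    (hPQ : ∀ a, ¬ (P a ∧ Q a)) (hW : ∀ a b, P a → Q b → δ a b = W ∧ δ b a = W) :
    ∀ (l : List X) (a : X), (a :: l).IsChain (fun a b => (P a ∧ Q b) ∨ (Q a ∧ P b)) →
      (P a → ∀ b, (Odd l.length → P b) → (Even l.length → Q b) →
        walk δ (a :: (l ++ [b])) = ((l.length : ℝ) + 1) * W) ∧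
      (Q a → ∀ b, (Odd l.length → Q b) → (Even l.length → P b) →
        walk δ (a :: (l ++ [b])) = ((l.length : ℝ) + 1) * W) := by
  intro l
  induction l with
  | nil =>
    intro a _
    refine ⟨fun ha b _ hb => ?_, fun ha b _ hb => ?_⟩
    · have h := (hW a b ha (hb (by simp))).1
      simp [walk, h]
    · have h := (hW b a (hb (by simp)) ha).2
      simp [walk, h]
  | cons c l ih =>
    intro a hch
    rw [List.isChain_cons_cons] at hch
    obtain ⟨hac, hch'⟩ := hch
    obtain ⟨ih1, ih2⟩ := ih c hch'
    have hw : ∀ b : X, walk δ (a :: ((c :: l) ++ [b])) = δ a c + walk δ (c :: (l ++ [b])) := by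
      intro b
      simp [walk]
    have hodd : Odd l.length → Even (c :: l).length := fun h => by
      rw [List.length_cons]; exact h.add_one
    have heven : Even l.length → Odd (c :: l).length := fun h => by
      rw [List.length_cons]; exact h.add_one
    refine ⟨fun ha b hb1 hb2 => ?_, fun ha b hb1 hb2 => ?_⟩
    · have hc : Q c := by
        rcases hac with h | h
        · exact h.2
        · exact absurd ⟨ha, h.1⟩ (hPQ a)
      have h1 := ih2 hc b (fun h => hb2 (hodd h)) (fun h => hb1 (heven h))
      rw [hw b, h1, (hW a c ha hc).1, List.length_cons]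
      push_cast
      ring
    · have hc : P c := by
        rcases hac with h | h
        · exact absurd ⟨h.1, ha⟩ (hPQ a)
        · exact h.2
      have h1 := ih1 hc b (fun h => hb2 (hodd h)) (fun h => hb1 (heven h))
      rw [hw b, h1, (hW c a hc ha).2, List.length_cons]
      push_cast
      ring

end IAc

theorem prAc : StAc := by
  intro X δ P Q W u hPQ hW hch hev hne
  cases u with
  | nil => exact absurd rfl hne
  | cons a l =>
    have hodd : Odd l.length := by
      rw [List.length_cons] at hev
      exact (Nat.even_add_one.1 hev) |> Nat.not_even_iff_odd.1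
    have hnl : l ≠ [] := by
      rintro rfl
      simp at hodd
    have hPa : P a ∨ Q a := by
      cases l with
      | nil => exact absurd rfl hnl
      | cons c l =>
        rw [List.isChain_cons_cons] at hch
        rcases hch.1 with h | h
        · exact Or.inl h.1
        · exact Or.inr h.1
    have hk := IAc.key δ P Q W hPQ hW l a hch
    have hnot : Even l.length → False := fun h => (Nat.not_even_iff_odd.2 hodd) h
    have hlen : (((a :: l).length : ℕ) : ℝ) = (l.length : ℝ) + 1 := by
      rw [List.length_cons]; push_cast; ring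
    rw [hlen]
    rcases hPa with h | h
    · exact hk.1 h a (fun _ => h) (fun h' => (hnot h').elim)
    · exact hk.2 h a (fun _ => h) (fun h' => (hnot h').elim)

end Pool.Agent.UTSP.BR
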