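import Pool.Agent.Work.MP_27a5a0_lc.BR.Stmts

/-!
# MP_27a5a0_lc, block BR, item Ak: alternating chains from vanishing moments
-/

set_option autoImplicit false

namespace Pool.Agent.UTSP.BR

open Finset Pool.Agent.UTSP Polynomial

/-- item Ak -/
theorem prAk : StAk := by
  intro hAl m c L hne hc hsum
  by_contra hno
  obtain ⟨q, hq, hpos, -⟩ := hAl m c L hc hno
  have h1 : 0 < ∑ a ∈ L, c a * q.eval (a : ℝ) := Finset.sum_pos hpos hne
  have hq0 : q ≠ 0 := by
    intro h
    obtain ⟨a, ha⟩ := hne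
    have h2 := hpos a ha
    rw [h, eval_zero, mul_zero] at h2
    exact lt_irrefl _ h2
  have hnd : q.natDegree < m := (natDegree_lt_iff_degree_lt hq0).2 hq
  have h2 : ∑ a ∈ L, c a * q.eval (a : ℝ) = 0 := by
    have h3 : ∀ a ∈ L, c a * q.eval (a : ℝ) =
        ∑ j ∈ range m, q.coeff j * (c a * (a : ℝ) ^ j) := by
      intro a _
      rw [eval_eq_sum_range' hnd, Finset.mul_sum]
      refine Finset.sum_congr rfl fun j _ => ?_
      ring
    rw [Finset.sum_congr rfl h3, Finset.sum_comm]
    refine Finset.sum_eq_zero fun j hj => ?_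
    rw [← Finset.mul_sum, hsum j (Finset.mem_range.1 hj), mul_zero]
  rw [h2] at h1
  exact lt_irrefl _ h1

end Pool.Agent.UTSP.BR
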