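import Pool.Agent.Work.MP_27a5a0_lc.BR.Stmts

/-!
# MP_27a5a0_lc, block BR, item Al: polynomials with prescribed signs
-/

set_option autoImplicit false

namespace Pool.Agent.UTSP.BR

open Finset Pool.Agent.UTSP Polynomial

namespace IAl

/-- the sign argument -/
theorem neg_of {ct ca cb E : ℝ} (h1 : ct * ca < 0) (h2 : 0 < ct * E) (h3 : 0 < cb * ca) :
    cb * E < 0 := by
  have h : 0 < (ct * ca) * (cb * E) := by
    have := mul_pos h2 h3
    calc 0 < ct * E * (cb * ca) := this
      _ = (ct * ca) * (cb * E) := by ring
  rcases mul_pos_iff.mp h with h | h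
  · exact absurd h.1 (not_lt.mpr h1.le)
  · exact h.2

theorem eval_q (q' : ℝ[X]) (s y : ℝ) :
    (-(q' * (X - C s))).eval y = q'.eval y * (s - y) := by
  simp only [eval_neg, eval_mul, eval_sub, eval_X, eval_C]
  ring

/-- the induction step for the chains -/
theorem no_chain {m : ℕ} {c : ℕ → ℝ} {L : Finset ℕ} (hc : ∀ a ∈ L, c a ≠ 0)
    (hL : ¬ ∃ l : List ℕ, l.length = m + 1 + 1 ∧ Alt c L l) {a t : ℕ} (ha : a ∈ L) (ht : t ∈ L)
    (hta : c t * c a < 0) (hlt : t < a) :
    ¬ ∃ l : List ℕ, l.length = m + 1 ∧ Alt c (L.filter (· ≤ t)) l := by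
  rintro ⟨l, hl, hch, hmem⟩
  cases l with
  | nil => simp at hl
  | cons e l =>
    have he := hmem e List.mem_cons_self
    rw [Finset.mem_filter] at he
    have hmem' : ∀ b ∈ e :: l, b ∈ L := fun b hb => (Finset.mem_filter.mp (hmem b hb)).1
    rcases lt_or_gt_of_ne (mul_ne_zero (hc e he.1) (hc a ha)) with h | h
    · apply hL
      refine ⟨a :: e :: l, by simp only [List.length_cons] at hl ⊢; omega, ?_, ?_⟩
      · rw [List.isChain_cons_cons]
        exact ⟨⟨lt_of_le_of_lt he.2 hlt, by rw [mul_comm]; exact h⟩, hch⟩
      · intro b hb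
        rcases List.mem_cons.mp hb with rfl | hb
        · exact ha
        · exact hmem' b hb
    · have hne : e ≠ t := by
        rintro rfl
        exact absurd h (not_lt.mpr hta.le)
      apply hL
      refine ⟨t :: e :: l, by simp only [List.length_cons] at hl ⊢; omega, ?_, ?_⟩
      · rw [List.isChain_cons_cons]
        refine ⟨⟨lt_of_le_of_ne he.2 hne, ?_⟩, hch⟩
        have h1 : c a * c t < 0 := by rw [mul_comm]; exact hta
        have h2 : 0 < c a * c e := by rw [mul_comm]; exact h
        by_contra hcon
        push Not at hcon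
        have h3 : (c a * c t) * (c a * c e) < 0 := mul_neg_of_neg_of_pos h1 h2
        have h4 : 0 ≤ (c a * c t) * (c a * c e) := by
          calc 0 ≤ (c a) ^ 2 * (c t * c e) := mul_nonneg (sq_nonneg _) hcon
            _ = (c a * c t) * (c a * c e) := by ring
        exact absurd h3 (not_lt.mpr h4)
      · intro b hb
        rcases List.mem_cons.mp hb with rfl | hb
        · exact ht
        · exact hmem' b hb

end IAl

open IAl in
theorem prAl : StAl := by
  intro m
  induction m with
  | zero =>
    intro c L _ hL
    have hE : L = ∅ := by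
      rw [Finset.eq_empty_iff_forall_notMem]
      intro a ha
      exact hL ⟨[a], rfl, List.isChain_singleton a, fun b hb => by
        rw [List.mem_singleton.mp hb]; exact ha⟩
    subst hE
    refine ⟨0, ?_, ?_, ?_⟩
    · rw [degree_zero]
      exact WithBot.bot_lt_coe _
    · intro a ha
      exact absurd ha (Finset.notMem_empty a)
    · intro a ha
      exact absurd ha (Finset.notMem_empty a)
  | succ m ih =>
    intro c L hc hL
    rcases L.eq_empty_or_nonempty with hE | hne
    · subst hE
      refine ⟨0, ?_, ?_, ?_⟩
      · rw [degree_zero]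
        exact WithBot.bot_lt_coe _
      · intro a ha
        exact absurd ha (Finset.notMem_empty a)
      · intro a ha
        exact absurd ha (Finset.notMem_empty a)
    have haL : L.max' hne ∈ L := L.max'_mem hne
    have hamax : ∀ b ∈ L, b ≤ L.max' hne := fun b hb => L.le_max' b hb
    generalize L.max' hne = a at haL hamax
    have huniq : ∀ a' ∈ L, (∀ b ∈ L, b ≤ a') → a' = a := fun a' ha' h =>
      le_antisymm (hamax a' ha') (h a haL)
    have haa : 0 < c a * c a := mul_self_pos.mpr (hc a haL)
    rcases (L.filter (fun b => c b * c a < 0)).eq_empty_or_nonempty with hE | hne2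
    · -- all signs are equal
      have hpos : ∀ b ∈ L, 0 < c b * c a := by
        intro b hb
        rcases lt_or_gt_of_ne (mul_ne_zero (hc b hb) (hc a haL)) with h | h
        · exact absurd (Finset.mem_filter.mpr ⟨hb, h⟩) (by rw [hE]; exact Finset.notMem_empty b)
        · exact h
      refine ⟨C (c a), ?_, ?_, ?_⟩
      · refine lt_of_le_of_lt degree_C_le ?_
        exact_mod_cast Nat.succ_pos m
      · intro b hb
        rw [eval_C]
        exact hpos b hb
      · intro a' ha' hmax y _
        rw [eval_C, huniq a' ha' hmax]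
        exact haa
    · have htm := (L.filter (fun b => c b * c a < 0)).max'_mem hne2
      have htmax : ∀ b ∈ L.filter (fun b => c b * c a < 0),
        b ≤ (L.filter (fun b => c b * c a < 0)).max' hne2 :=
        fun b hb => (L.filter (fun b => c b * c a < 0)).le_max' b hb
      generalize (L.filter (fun b => c b * c a < 0)).max' hne2 = t at htm htmax
      obtain ⟨htL, hta⟩ := Finset.mem_filter.mp htm
      have hlt : t < a := by
        refine lt_of_le_of_ne (hamax t htL) ?_
        rintro rfl
        exact absurd haa (not_lt.mpr hta.le)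
      obtain ⟨q', hdeg, hq1, hq2⟩ := ih c (L.filter (· ≤ t))
        (fun b hb => hc b (Finset.mem_filter.mp hb).1) (no_chain hc hL haL htL hta hlt)
      have htL' : t ∈ L.filter (· ≤ t) := Finset.mem_filter.mpr ⟨htL, le_refl t⟩
      have hq3 : ∀ y : ℝ, (t : ℝ) ≤ y → 0 < c t * q'.eval y :=
        hq2 t htL' (fun b hb => (Finset.mem_filter.mp hb).2)
      have hq0 : q' ≠ 0 := by
        rintro rfl
        have := hq1 t htL'
        rw [eval_zero, mul_zero] at this
        exact lt_irrefl 0 this
      have hbig : ∀ b ∈ L, t < b → 0 < c b * c a := by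
        intro b hb htb
        rcases lt_or_gt_of_ne (mul_ne_zero (hc b hb) (hc a haL)) with h | h
        · exact absurd (htmax b (Finset.mem_filter.mpr ⟨hb, h⟩)) (not_le.mpr htb)
        · exact h
      have key : ∀ b ∈ L, t < b → ∀ y : ℝ, (b : ℝ) ≤ y →
          0 < c b * (-(q' * (X - C ((t : ℝ) + 1 / 2)))).eval y := by
        intro b hb htb y hy
        have h1 : (t : ℝ) + 1 ≤ b := by exact_mod_cast htb
        have h2 : c b * q'.eval y < 0 := neg_of hta (hq3 y (by linarith)) (hbig b hb htb)
        have h3 : (t : ℝ) + 1 / 2 - y < 0 := by linarith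
        rw [eval_q, ← mul_assoc]
        exact mul_pos_of_neg_of_neg h2 h3
      refine ⟨-(q' * (X - C ((t : ℝ) + 1 / 2))), ?_, ?_, ?_⟩
      · rw [degree_neg, degree_mul, degree_X_sub_C, degree_eq_natDegree hq0]
        rw [degree_eq_natDegree hq0] at hdeg
        have h1 : q'.natDegree < m := by exact_mod_cast hdeg
        exact_mod_cast Nat.succ_lt_succ h1
      · intro b hb
        rcases le_or_gt b t with h | h
        · have h1 := hq1 b (Finset.mem_filter.mpr ⟨hb, h⟩)
          have h2 : (b : ℝ) ≤ t := by exact_mod_cast h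
          rw [eval_q, ← mul_assoc]
          exact mul_pos h1 (by linarith)
        · exact key b hb h b (le_refl _)
      · intro a' ha' hmax y hy
        have h1 := huniq a' ha' hmax
        subst h1
        exact key a' haL hlt y hy

end Pool.Agent.UTSP.BR
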