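import Pool.Agent.Work.MP_27a5a0_lc.BR.Stmts

/-!
# MP_27a5a0_lc, block BR, item Cd: the number of integer points with `ℓ¹` norm `M d`
-/

set_option autoImplicit false

namespace Pool.Agent.UTSP.BR

open Finset Pool.Agent.UTSP Polynomial

namespace ICd

theorem sum_half (N : ℕ) :
    ∑ j ∈ Finset.Icc (-(N : ℤ)) N, (1 / 2 : ℝ) ^ j.natAbs = 3 - 2 * (1 / 2 : ℝ) ^ N := by
  induction N with
  | zero => norm_num
  | succ N ih =>
    have h : Finset.Icc (-((N + 1 : ℕ) : ℤ)) ((N + 1 : ℕ) : ℤ) =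
        insert (-((N + 1 : ℕ) : ℤ)) (insert ((N + 1 : ℕ) : ℤ) (Finset.Icc (-(N : ℤ)) N)) := by
      ext j
      simp only [Finset.mem_Icc, Finset.mem_insert]
      push_cast
      omega
    have h1 : (-((N + 1 : ℕ) : ℤ)) ∉ insert ((N + 1 : ℕ) : ℤ) (Finset.Icc (-(N : ℤ)) N) := by
      simp only [Finset.mem_Icc, Finset.mem_insert]
      push_cast
      omega
    have h2 : ((N + 1 : ℕ) : ℤ) ∉ Finset.Icc (-(N : ℤ)) N := by
      simp only [Finset.mem_Icc]
      push_cast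
      omega
    rw [h, Finset.sum_insert h1, Finset.sum_insert h2, ih, Int.natAbs_neg, Int.natAbs_natCast,
      pow_succ]
    ring

end ICd

/-- [Cd] The number of integer points with `ℓ¹` norm `M d` is at most `(3 * 2 ^ M) ^ d`. -/
theorem prCd : StCd := by
  intro M d
  set N := M * d with hN
  have key : ((Vs d N).card : ℝ) * (1 / 2 : ℝ) ^ N ≤ 3 ^ d := by
    have h1 : ((Vs d N).card : ℝ) * (1 / 2 : ℝ) ^ N =
        ∑ v ∈ Vs d N, ∏ i, (1 / 2 : ℝ) ^ (v i).natAbs := by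
      rw [← nsmul_eq_mul, ← Finset.sum_const]
      refine Finset.sum_congr rfl fun v hv => ?_
      have hv' : ∑ i, |v i| = (N : ℤ) := (Finset.mem_filter.1 hv).2
      have hs : ∑ i, (v i).natAbs = N := by
        have : ((∑ i, (v i).natAbs : ℕ) : ℤ) = (N : ℤ) := by
          rw [← hv']
          push_cast
          exact Finset.sum_congr rfl fun i _ => rfl
        exact_mod_cast this
      rw [Finset.prod_pow_eq_pow_sum, hs]
    have h2 : ∑ v ∈ Vs d N, ∏ i, (1 / 2 : ℝ) ^ (v i).natAbs ≤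
        ∑ v ∈ Fintype.piFinset (fun _ : Fin d => Finset.Icc (-(N : ℤ)) N),
          ∏ i, (1 / 2 : ℝ) ^ (v i).natAbs :=
      Finset.sum_le_sum_of_subset_of_nonneg (Finset.filter_subset _ _) fun v _ _ =>
        Finset.prod_nonneg fun i _ => by positivity
    have h3 : ∑ v ∈ Fintype.piFinset (fun _ : Fin d => Finset.Icc (-(N : ℤ)) N),
          ∏ i, (1 / 2 : ℝ) ^ (v i).natAbs =
        ∏ _i : Fin d, ∑ j ∈ Finset.Icc (-(N : ℤ)) N, (1 / 2 : ℝ) ^ j.natAbs :=
      (Finset.prod_univ_sum (fun _ : Fin d => Finset.Icc (-(N : ℤ)) N)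
        (fun _ j => (1 / 2 : ℝ) ^ j.natAbs)).symm
    rw [h1]
    refine h2.trans ?_
    rw [h3, ICd.sum_half, Finset.prod_const, Finset.card_univ, Fintype.card_fin]
    have h4 : (0 : ℝ) ≤ (1 / 2 : ℝ) ^ N := by positivity
    have h5 : (1 / 2 : ℝ) ^ N ≤ 1 := pow_le_one₀ (by norm_num) (by norm_num)
    exact pow_le_pow_left₀ (by linarith) (by linarith) d
  have h6 : ((Vs d N).card : ℝ) ≤ ((3 * 2 ^ M) ^ d : ℝ) := by
    have h7 : (0 : ℝ) < 2 ^ N := by positivity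
    have h8 : (1 / 2 : ℝ) ^ N * 2 ^ N = 1 := by
      rw [← mul_pow]
      norm_num
    calc ((Vs d N).card : ℝ) = ((Vs d N).card : ℝ) * (1 / 2 : ℝ) ^ N * 2 ^ N := by
          rw [mul_assoc, h8, mul_one]
      _ ≤ 3 ^ d * 2 ^ N := mul_le_mul_of_nonneg_right key h7.le
      _ = (3 * 2 ^ M) ^ d := by rw [mul_pow, ← pow_mul, hN]
  exact_mod_cast h6

end Pool.Agent.UTSP.BR
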