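import Pool.Agent.Work.MP_27a5a0_lc.BR.Stmts

/-!
# MP_27a5a0_lc, block BR, item Cy1: the cost of a cyclic ordering as a sum over `ZMod (m + 1)`
-/

set_option autoImplicit false

namespace Pool.Agent.UTSP.BR

open Finset Pool.Agent.UTSP

namespace ICy1

theorem walk_ofFn {X : Type} (δ : X → X → ℝ) (b : X) : ∀ (m : ℕ) (f : Fin (m + 1) → X),
    walk δ (List.ofFn f ++ [b]) =
      ∑ i : Fin m, δ (f i.castSucc) (f i.succ) + δ (f (Fin.last m)) b
  | 0, f => by
    have h1 : List.ofFn f ++ [b] = [f 0, b] := by simp [List.ofFn_succ]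
    rw [h1]
    simp [walk]
  | m + 1, f => by
    have ih := walk_ofFn δ b m (fun i => f i.succ)
    have h1 : List.ofFn f ++ [b] =
        f 0 :: f (Fin.succ 0) :: (List.ofFn (fun i : Fin m => f i.succ.succ) ++ [b]) := by
      simp [List.ofFn_succ]
    have h2 : List.ofFn (fun i : Fin (m + 1) => f i.succ) ++ [b] =
        f (Fin.succ 0) :: (List.ofFn (fun i : Fin m => f i.succ.succ) ++ [b]) := by
      simp [List.ofFn_succ]
    have h3 : walk δ (List.ofFn f ++ [b]) = δ (f 0) (f (Fin.succ 0)) +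
        walk δ (List.ofFn (fun i : Fin (m + 1) => f i.succ) ++ [b]) := by
      rw [h1, h2]
      rfl
    rw [h3, ih, Fin.sum_univ_succ]
    exact (add_assoc _ _ _).symm

theorem cyc_ofFn {X : Type} (δ : X → X → ℝ) (m : ℕ) (f : Fin (m + 1) → X) :
    cyc δ (List.ofFn f) = ∑ i : Fin (m + 1), δ (f i) (f (i + 1)) := by
  have h1 : cyc δ (List.ofFn f) = walk δ (List.ofFn f ++ [f 0]) := by
    rw [List.ofFn_succ]
    rfl
  rw [h1, walk_ofFn, Fin.sum_univ_castSucc]
  simp only [Fin.coeSucc_eq_succ, Fin.last_add_one]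

end ICy1

theorem prCy1 : StCy1 := by
  intro X δ m l hl
  let f : Fin (m + 1) → X := fun i => l.get (i.cast hl.symm)
  have hf : l = List.ofFn f := by
    apply List.ext_getElem
    · rw [List.length_ofFn, hl]
    · intro i h1 h2
      rw [List.getElem_ofFn]
      rfl
  refine ⟨f, ?_, ?_, ?_⟩
  · intro x
    rw [hf]
    exact List.mem_ofFn
  · intro h
    rw [hf] at h
    exact List.nodup_ofFn.1 h
  · rw [hf]
    exact ICy1.cyc_ofFn δ m f

end Pool.Agent.UTSP.BR
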