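import Pool.Agent.Work.MP_27a5a0_lc.BR.Stmts

/-!
Block BR, item Cy2: the list of the values of a map on `ZMod (m+1)` and its cyclic cost.
-/

set_option autoImplicit false

namespace Pool.Agent.UTSP.BR

open Finset Pool.Agent.UTSP

namespace ICy2

variable {X : Type} (δ : X → X → ℝ)

lemma walk_range (k : ℕ) : ∀ f : ℕ → X,
    walk δ ((List.range (k + 1)).map f) = ∑ i ∈ Finset.range k, δ (f i) (f (i + 1)) := by
  induction k with
  | zero =>
    intro f
    simp [walk]
  | succ k ih =>
    intro f
    have h1 : (List.range (k + 1 + 1)).map f =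
        f 0 :: (List.range (k + 1)).map (fun i => f (i + 1)) := by
      rw [List.range_succ_eq_map, List.map_cons, List.map_map]
      rfl
    have h2 : (List.range (k + 1)).map (fun i => f (i + 1)) =
        f 1 :: (List.range k).map (fun i => f (i + 1 + 1)) := by
      rw [List.range_succ_eq_map, List.map_cons, List.map_map]
      rfl
    rw [h1, h2]
    show δ (f 0) (f 1) + walk δ (f 1 :: (List.range k).map (fun i => f (i + 1 + 1))) = _
    rw [← h2, ih (fun i => f (i + 1)), Finset.sum_range_succ', add_comm]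

lemma cyc_range (m : ℕ) (f : ℕ → X) (hf : f (m + 1) = f 0) :
    cyc δ ((List.range (m + 1)).map f) =
      ∑ i ∈ Finset.range (m + 1), δ (f i) (f (i + 1)) := by
  rw [← walk_range δ (m + 1) f, List.range_succ (n := m + 1), List.map_append]
  have h1 : (List.range (m + 1)).map f =
      f 0 :: (List.range m).map (fun i => f (i + 1)) := by
    rw [List.range_succ_eq_map, List.map_cons, List.map_map]
    rfl
  rw [h1, List.map_cons, List.map_nil, hf]
  rfl

lemma sum_zmod (m : ℕ) (g : ZMod (m + 1) → ℝ) :
    ∑ i ∈ Finset.range (m + 1), g (i : ZMod (m + 1)) = ∑ i : ZMod (m + 1), g i := by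
  refine Finset.sum_bij' (fun i _ => (i : ZMod (m + 1))) (fun i _ => ZMod.val i) ?_ ?_ ?_ ?_ ?_
  · intro i _; exact Finset.mem_univ _
  · intro i _; exact Finset.mem_range.mpr (ZMod.val_lt i)
  · intro i hi; exact ZMod.val_natCast_of_lt (Finset.mem_range.mp hi)
  · intro i _; exact ZMod.natCast_zmod_val i
  · intro i _; rfl

end ICy2

open ICy2 in
/-- Item Cy2. -/
theorem prCy2 : StCy2 := by
  intro X δ m p
  refine ⟨(List.range (m + 1)).map (fun i : ℕ => p (i : ZMod (m + 1))), ?_, ?_, ?_, ?_⟩
  · simp
  · intro x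
    constructor
    · intro hx
      obtain ⟨i, _, hi⟩ := List.mem_map.mp hx
      exact ⟨_, hi⟩
    · rintro ⟨i, hi⟩
      refine List.mem_map.mpr ⟨ZMod.val i, List.mem_range.mpr (ZMod.val_lt i), ?_⟩
      show p ((ZMod.val i : ℕ) : ZMod (m + 1)) = x
      rw [ZMod.natCast_zmod_val, hi]
  · intro hp
    refine List.Nodup.map_on ?_ List.nodup_range
    intro i hi j hj hij
    have h := hp hij
    have h' := congrArg ZMod.val h
    rwa [ZMod.val_natCast_of_lt (List.mem_range.mp hi),
      ZMod.val_natCast_of_lt (List.mem_range.mp hj)] at h'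
  · rw [cyc_range δ m (fun i : ℕ => p (i : ZMod (m + 1)))]
    · rw [← sum_zmod m (fun i => δ (p i) (p (i + 1)))]
      refine Finset.sum_congr rfl fun i _ => ?_
      simp
    · simp only [Nat.cast_zero]
      rw [ZMod.natCast_self]

end Pool.Agent.UTSP.BR
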