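import Pool.Agent.Work.MP_27a5a0_lc.BR.Stmts
import Pool.Agent.Work.MP_27a5a0_lc.E1

/-!
MP_27a5a0_lc, block BR, item Ex: extension to all `n`.
-/

set_option autoImplicit false

namespace Pool.Agent.UTSP.BR

open Finset Pool.Agent.UTSP

namespace IEx

open ExtAux

/-- a tour of the larger space restricts to a tour of the smaller one -/
theorem ratioK_ge {X Y : Type} [Fintype X] [DecidableEq X] [Fintype Y] [DecidableEq Y]
    (δ : X → X → ℝ) (δ' : Y → Y → ℝ) (hδ' : IsMet δ') (f : X → Y) (hinj : Function.Injective f)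
    (hf : ∀ x y, δ' (f x) (f y) = δ x y) (k : ℕ) (κ : ℝ) (hκ : 0 ≤ κ) (h : NoTourK k δ κ) (τ : List Y)
    (hτ : IsOrd (univ : Finset Y) τ) : ENNReal.ofReal κ ≤ ratioK k δ' τ := by
  classical
  have hg := hinj.isPartialInv
  set g : Y → Option X := Function.partialInv f with hgdef
  have hgs : ∀ x y, g y = some x ↔ f x = y := fun x y => hg x y
  obtain ⟨hnd, hfs⟩ := hτ
  -- the restricted tour
  have hτ' : IsOrd (univ : Finset X) (τ.filterMap g) := by
    constructor
    · apply List.Nodup.filterMap _ hnd
      intro a a' b hb hb'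
      rw [Option.mem_def, hgs] at hb hb'
      rw [← hb, ← hb']
    · ext x
      simp only [List.mem_toFinset, mem_univ, iff_true, List.mem_filterMap]
      refine ⟨f x, ?_, (hgs x (f x)).mpr rfl⟩
      rw [← List.mem_toFinset, hfs]
      exact mem_univ _
  obtain ⟨S, hS2, hSk, σ, hσ, hlt⟩ := h _ hτ'
  -- the image
  have hScard : (S.image f).card = S.card := card_image_of_injective S hinj
  have hfilt : ∀ l : List Y, l.filter (fun y => decide (y ∈ S.image f)) =
      ((l.filterMap g).filter (fun x => decide (x ∈ S))).map f := by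
    intro l
    induction l with
    | nil => rfl
    | cons y l ih =>
      rcases hgy : g y with _ | x
      · have hy : y ∉ S.image f := by
          intro hy
          rw [mem_image] at hy
          obtain ⟨x, _, hx⟩ := hy
          have := (hgs x y).mpr hx
          rw [hgy] at this
          cases this
        rw [List.filter_cons_of_neg (by simpa using hy), List.filterMap_cons_none hgy, ih]
      · have hxy : f x = y := (hgs x y).mp hgy
        rw [List.filterMap_cons_some hgy]
        by_cases hx : x ∈ S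
        · have hy : y ∈ S.image f := by
            rw [mem_image]
            exact ⟨x, hx, hxy⟩
          rw [List.filter_cons_of_pos (by simpa using hy), List.filter_cons_of_pos (by simpa using hx),
            List.map_cons, hxy, ih]
        · have hy : y ∉ S.image f := by
            intro hy
            rw [mem_image] at hy
            obtain ⟨x', hx', hx''⟩ := hy
            have : x' = x := hinj (hx''.trans hxy.symm)
            exact hx (this ▸ hx')
          rw [List.filter_cons_of_neg (by simpa using hy), List.filter_cons_of_neg (by simpa using hx),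
            ih]
  -- the image of the ordering `σ`
  have hσ' : IsOrd (S.image f) (σ.map f) := by
    constructor
    · exact hσ.1.map hinj
    · rw [← hσ.2]
      ext y
      simp
  -- positive lower bound
  obtain ⟨ε, hε0, hε⟩ : ∃ ε : ℝ, 0 < ε ∧ ∀ x y : Y, x ≠ y → ε ≤ δ' x y := by
    have hne : (univ.filter (fun p : Y × Y => p.1 ≠ p.2)).Nonempty := by
      obtain ⟨a, ha, b, hb, hab⟩ := Finset.one_lt_card.mp (show 1 < (S.image f).card by omega)
      exact ⟨(a, b), by rw [mem_filter]; exact ⟨mem_univ _, hab⟩⟩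
    obtain ⟨p, hp, hmin⟩ := Finset.exists_min_image _ (fun p : Y × Y => δ' p.1 p.2) hne
    rw [mem_filter] at hp
    refine ⟨δ' p.1 p.2, hδ'.pos _ _ hp.2, ?_⟩
    intro x y hxy
    exact hmin (x, y) (by rw [mem_filter]; exact ⟨mem_univ _, hxy⟩)
  have hlow : ∀ c ∈ {c : ℝ | ∃ σ : List Y, IsOrd (S.image f) σ ∧ cyc δ' σ = c}, ε ≤ c := by
    rintro c ⟨σ₁, h1, rfl⟩
    apply cyc_lower hδ' ε hε σ₁ h1.1
    have : σ₁.length = (S.image f).card := by
      rw [← h1.2, List.toFinset_card_of_nodup h1.1]
    omega
  have hopt1 : ε ≤ opt δ' (S.image f) := by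
    unfold opt
    exact le_csInf ⟨_, σ.map f, hσ', rfl⟩ hlow
  have hopt2 : opt δ' (S.image f) ≤ cyc δ σ := by
    unfold opt
    rw [← cyc_map f hf σ]
    exact csInf_le ⟨ε, hlow⟩ ⟨σ.map f, hσ', rfl⟩
  unfold ratioK
  refine le_iSup_of_le ⟨S.image f, by omega, by omega⟩ (ENNReal.ofReal_le_ofReal ?_)
  rw [le_div_iff₀ (by linarith)]
  have e : cyc δ' (τ.filter (fun x => decide (x ∈ S.image f))) =
      cyc δ ((τ.filterMap g).filter (fun x => decide (x ∈ S))) := by
    rw [hfilt, cyc_map f hf]
  have h5 : κ * opt δ' (S.image f) ≤ κ * cyc δ σ := mul_le_mul_of_nonneg_left hopt2 hκ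
  have h6 : κ * opt δ' (S.image f) ≤
      cyc δ ((τ.filterMap g).filter (fun x => decide (x ∈ S))) := by linarith
  rw [← e] at h6
  exact h6

end IEx

open ExtAux in
/-- Ex. From one metric space without good tours to a lower bound on `RK k n`. -/
theorem prEx : StEx := by
  intro X _ _ δ hδ k κ hκ hno n hn
  obtain ⟨f⟩ : Nonempty (X ↪ Fin n) :=
    Function.Embedding.nonempty_of_card_le (by rw [Fintype.card_fin]; exact hn)
  have hg := f.injective.isPartialInv
  set g : Fin n → Option X := Function.partialInv f with hgdef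
  have hgs : ∀ x y, g y = some x ↔ f x = y := fun x y => hg x y
  -- bound for the distances
  obtain ⟨Δ, hΔ0, hΔ⟩ : ∃ Δ : ℝ, 0 < Δ ∧ ∀ x y, δ x y ≤ Δ := by
    refine ⟨1 + ∑ p : X × X, δ p.1 p.2, ?_, ?_⟩
    · have : 0 ≤ ∑ p : X × X, δ p.1 p.2 := Finset.sum_nonneg fun p _ => met_nonneg hδ _ _
      linarith
    · intro x y
      have : δ x y ≤ ∑ p : X × X, δ p.1 p.2 :=
        Finset.single_le_sum (f := fun p : X × X => δ p.1 p.2) (fun p _ => met_nonneg hδ _ _)
          (mem_univ (x, y))
      linarith
  have hM : IsMet (dext δ Δ g) := by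
    apply isMet_dext δ hδ Δ hΔ0 hΔ g
    intro a b x ha hb
    rw [hgs] at ha hb
    rw [← ha, ← hb]
  have hf : ∀ x y, dext δ Δ g (f x) (f y) = δ x y := by
    intro x y
    rcases eq_or_ne x y with rfl | hxy
    · rw [hM.self, hδ.self]
    · exact dext_some δ Δ g (fun h => hxy (f.injective h)) ((hgs x _).mpr rfl) ((hgs y _).mpr rfl)
  let m : MetricSpace (Fin n) :=
    { dist := dext δ Δ g
      dist_self := hM.self
      dist_comm := hM.symm
      dist_triangle := hM.tri
      eq_of_dist_eq_zero := by
        intro x y hxy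
        by_contra hne
        exact (hM.pos x y hne).ne' hxy }
  unfold RK
  refine le_iSup_of_le m (le_iInf fun τ => ?_)
  exact IEx.ratioK_ge δ (dext δ Δ g) hM f f.injective hf k κ hκ hno τ.1 τ.2

end Pool.Agent.UTSP.BR
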