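import Pool.Agent.Work.MP_27a5a0_lc.BR.Stmts

/-!
Block BR, item Fe: the restriction of the master tour to the elements of a sublist sorted by the
tour is the sublist.
-/

set_option autoImplicit false

namespace Pool.Agent.UTSP.BR

open Finset Pool.Agent.UTSP Polynomial

theorem prFe : StFe := by
  intro X _ _ τ u hτ hu
  have hτs : τ.Pairwise (fun a b => τ.idxOf a < τ.idxOf b) := by
    rw [List.pairwise_iff_getElem]
    intro i j hi hj hij
    rw [hτ.1.idxOf_getElem, hτ.1.idxOf_getElem]
    exact hij
  have hun : u.Nodup := by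
    refine hu.imp (fun {a b} h hab => ?_)
    rw [hab] at h
    exact lt_irrefl _ h
  have hp : (τ.filter (fun x => decide (x ∈ u.toFinset))).Perm u := by
    rw [List.perm_ext_iff_of_nodup (hτ.1.filter _) hun]
    intro x
    rw [List.mem_filter, decide_eq_true_eq, List.mem_toFinset]
    refine ⟨fun h => h.2, fun h => ⟨?_, h⟩⟩
    rw [← List.mem_toFinset, hτ.2]
    exact Finset.mem_univ x
  refine List.Perm.eq_of_pairwise (le := fun a b => τ.idxOf a < τ.idxOf b) ?_ (hτs.filter _) hu hp
  intro a b _ _ h1 h2
  exact absurd (h1.trans h2) (lt_irrefl _)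

end Pool.Agent.UTSP.BR
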