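import Pool.Agent.Work.MP_27a5a0_lc.BR.Stmts

set_option autoImplicit false

namespace Pool.Agent.UTSP.BR

theorem prMe : StMe := by
  intro d N
  refine ⟨fun x => ?_, fun x y hxy => ?_, fun x y => ?_, fun x y z => ?_⟩
  · simp [l1]
  · have h0 : 0 ≤ l1 x.1 y.1 := Finset.sum_nonneg fun i _ => abs_nonneg _
    rcases h0.lt_or_eq with h | h
    · exact h
    · exfalso
      apply hxy
      apply Subtype.ext
      funext i
      have h1 := (Finset.sum_eq_zero_iff_of_nonneg
        (fun i _ => abs_nonneg ((x.1 i : ℝ) - (y.1 i : ℝ)))).mp h.symm i (Finset.mem_univ i)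
      have h2 := sub_eq_zero.mp (abs_eq_zero.mp h1)
      exact_mod_cast h2
  · exact Finset.sum_congr rfl fun i _ => abs_sub_comm _ _
  · show l1 x.1 z.1 ≤ l1 x.1 y.1 + l1 y.1 z.1
    unfold l1
    rw [← Finset.sum_add_distrib]
    exact Finset.sum_le_sum fun i _ => abs_sub_le _ _ _

end Pool.Agent.UTSP.BR
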