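import Pool.Agent.Work.MP_27a5a0_lc.BR.Stmts

/-!
# Item [27a5a0 BR So]: a set of small width has a short walk
-/

set_option autoImplicit false

namespace Pool.Agent.UTSP.BR

open Finset Pool.Agent.UTSP Polynomial

namespace ISo

theorem walk_le {X : Type} (δ : X → X → ℝ) (T : X → ℤ) : ∀ (l : List X) (a : X),
    (∀ x ∈ a :: l, ∀ y ∈ a :: l, δ x y ≤ 2 * |((T x : ℝ) - (T y : ℝ))|) →
    (a :: l).Pairwise (fun x y => T x ≤ T y) →
    ∃ b ∈ a :: l, walk δ (a :: l) ≤ 2 * ((T b : ℝ) - (T a : ℝ))
  | [], a, _, _ => ⟨a, List.mem_singleton.2 rfl, by simp [walk]⟩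
  | c :: l, a, h, hp => by
    obtain ⟨b, hb, hw⟩ := walk_le δ T l c
      (fun x hx y hy => h x (List.mem_cons_of_mem _ hx) y (List.mem_cons_of_mem _ hy))
      (List.pairwise_cons.1 hp).2
    refine ⟨b, List.mem_cons_of_mem _ hb, ?_⟩
    have h1 : T a ≤ T c := (List.pairwise_cons.1 hp).1 c List.mem_cons_self
    have h2 : (T a : ℝ) ≤ T c := by exact_mod_cast h1
    have h3 := h a List.mem_cons_self c (List.mem_cons_of_mem _ List.mem_cons_self)
    have h4 : |((T a : ℝ) - (T c : ℝ))| = (T c : ℝ) - T a := by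
      rw [abs_sub_comm, abs_of_nonneg (by linarith)]
    rw [h4] at h3
    show δ a c + walk δ (c :: l) ≤ 2 * ((T b : ℝ) - (T a : ℝ))
    linarith

end ISo

theorem prSo : StSo := by
  intro X _ δ A T D hD hd hT
  let r : X → X → Prop := fun x y => T x ≤ T y
  have htot : Std.Total r := ⟨fun x y => le_total (T x) (T y)⟩
  have htr : IsTrans X r := ⟨fun x y z hxy hyz => le_trans hxy hyz⟩
  have hperm : (A.toList.insertionSort r).Perm A.toList := List.perm_insertionSort r _
  have hpw : (A.toList.insertionSort r).Pairwise r := List.pairwise_insertionSort r _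
  refine ⟨A.toList.insertionSort r, ⟨hperm.nodup_iff.2 A.nodup_toList, ?_⟩, ?_⟩
  · rw [List.toFinset_eq_of_perm _ _ hperm, Finset.toList_toFinset]
  · have hmem : ∀ x ∈ A.toList.insertionSort r, x ∈ A := fun x hx =>
      Finset.mem_toList.1 (hperm.mem_iff.1 hx)
    generalize A.toList.insertionSort r = l at hmem hpw
    cases l with
    | nil =>
      show (0 : ℝ) ≤ 2 * D
      linarith
    | cons a l =>
      obtain ⟨b, hb, hw⟩ := ISo.walk_le δ T l a
        (fun x hx y hy => hd x (hmem x hx) y (hmem y hy)) hpw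
      have h1 := hT b (hmem b hb) a (hmem a List.mem_cons_self)
      have h2 := le_abs_self ((T b : ℝ) - (T a : ℝ))
      linarith

end Pool.Agent.UTSP.BR
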