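import Pool.Agent.Work.MP_27a5a0_lc.BR.Stmts

/-!
# MP_27a5a0_lc, block BR, item Sp: the closed walk of the concatenation of two orderings
-/

set_option autoImplicit false

namespace Pool.Agent.UTSP.BR

open Finset Pool.Agent.UTSP Polynomial

namespace ISp

theorem walk_app {X : Type} (δ : X → X → ℝ) (l : List X) (a b : X) (l' : List X) :
    walk δ (l ++ a :: b :: l') = walk δ (l ++ [a]) + δ a b + walk δ (b :: l') := by
  induction l with
  | nil =>
    show δ a b + walk δ (b :: l') = 0 + δ a b + walk δ (b :: l')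
    rw [zero_add]
  | cons c l ih =>
    cases l with
    | nil =>
      show δ c a + (δ a b + walk δ (b :: l')) = (δ c a + 0) + δ a b + walk δ (b :: l')
      ring
    | cons d l =>
      have h1 : walk δ ((c :: d :: l) ++ a :: b :: l') =
          δ c d + walk δ ((d :: l) ++ a :: b :: l') := rfl
      have h2 : walk δ ((c :: d :: l) ++ [a]) = δ c d + walk δ ((d :: l) ++ [a]) := rfl
      rw [h1, h2, ih]
      ring

theorem cyc_app {X : Type} (δ : X → X → ℝ) (σ σ' : List X) (h : σ ≠ []) (h' : σ' ≠ []) :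
    cyc δ (σ ++ σ') = walk δ σ + δ (σ.getLast h) (σ'.head h') + walk δ σ' +
      δ (σ'.getLast h') (σ.head h) := by
  obtain ⟨x, s, hs⟩ := List.exists_cons_of_ne_nil h
  obtain ⟨y, s', hs'⟩ := List.exists_cons_of_ne_nil h'
  have h1 : cyc δ (σ ++ σ') = walk δ (σ ++ σ' ++ [x]) := by
    subst hs
    rfl
  have hx : σ.head h = x := by
    subst hs
    rfl
  have hy : σ'.head h' = y := by
    subst hs'
    rfl
  have h2 : σ ++ σ' ++ [x] = σ.dropLast ++ σ.getLast h :: y :: (s' ++ [x]) := by
    conv_lhs => rw [← List.dropLast_append_getLast h, hs']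
    simp
  have h3 : y :: (s' ++ [x]) = σ'.dropLast ++ σ'.getLast h' :: x :: [] := by
    have h4 : y :: (s' ++ [x]) = σ' ++ [x] := by
      rw [hs']
      rfl
    rw [h4]
    conv_lhs => rw [← List.dropLast_append_getLast h']
    simp
  have h5 : walk δ [x] = 0 := rfl
  rw [h1, h2, walk_app, h3, walk_app, List.dropLast_append_getLast, List.dropLast_append_getLast,
    h5, hx, hy]
  ring

end ISp

theorem prSp : StSp := by
  intro X _ δ A B σ σ' W hA hB hAB hσ hσ' hW
  have hne : σ ≠ [] := by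
    rintro rfl
    have h1 : A = ∅ := by rw [← hσ.2]; rfl
    exact hA.ne_empty h1
  have hne' : σ' ≠ [] := by
    rintro rfl
    have h1 : B = ∅ := by rw [← hσ'.2]; rfl
    exact hB.ne_empty h1
  have hm : ∀ x ∈ σ, x ∈ A := fun x hx => by rw [← hσ.2]; exact List.mem_toFinset.2 hx
  have hm' : ∀ x ∈ σ', x ∈ B := fun x hx => by rw [← hσ'.2]; exact List.mem_toFinset.2 hx
  refine ⟨⟨?_, ?_⟩, ?_⟩
  · rw [List.nodup_append]
    refine ⟨hσ.1, hσ'.1, ?_⟩
    intro a ha b hb hab
    subst hab
    exact (Finset.disjoint_left.1 hAB) (hm a ha) (hm' a hb)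
  · rw [List.toFinset_append, hσ.2, hσ'.2]
  · rw [ISp.cyc_app δ σ σ' hne hne']
    have h1 := (hW _ (hm _ (List.getLast_mem hne)) _ (hm' _ (List.head_mem hne'))).1
    have h2 := (hW _ (hm _ (List.head_mem hne)) _ (hm' _ (List.getLast_mem hne'))).2
    linarith

end Pool.Agent.UTSP.BR
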