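import Pool.Agent.Work.MP_27a5a0_lc.BR.Stmts

set_option autoImplicit false

namespace Pool.Agent.UTSP.BR

open Finset Pool.Agent.UTSP Polynomial

namespace ITc

/-- The common label of a vertex and its antipode. -/
def lab {X : Type} (ng : X → X) (pos : X → ℕ) (v : X) : ℕ := min (pos v) (pos (ng v))

/-- The sign of a vertex. -/
noncomputable def sg {X : Type} (ng : X → X) (pos : X → ℕ) (v : X) : ℝ :=
  if pos v < pos (ng v) then 1 else -1

theorem lab_ng {X : Type} (ng : X → X) (pos : X → ℕ) (h : ∀ v, ng (ng v) = v) (v : X) :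
    lab ng pos (ng v) = lab ng pos v := by
  unfold lab
  rw [h, min_comm]

theorem sg_ng {X : Type} (ng : X → X) (pos : X → ℕ) (h : ∀ v, ng (ng v) = v)
    (h' : ∀ v, ng v ≠ v) (hpos : Function.Injective pos) (v : X) :
    sg ng pos (ng v) = - sg ng pos v := by
  have hne : pos (ng v) ≠ pos v := fun hh => h' v (hpos hh)
  unfold sg
  rw [h]
  rcases lt_or_gt_of_ne hne with hlt | hlt
  · rw [if_pos hlt, if_neg (not_lt.mpr hlt.le)]
    norm_num
  · rw [if_neg (not_lt.mpr hlt.le), if_pos hlt]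

theorem sg_cases {X : Type} (ng : X → X) (pos : X → ℕ) (v : X) :
    sg ng pos v = 1 ∨ sg ng pos v = -1 := by
  unfold sg
  split_ifs
  · exact Or.inl rfl
  · exact Or.inr rfl

theorem lab_eq {X : Type} (ng : X → X) (pos : X → ℕ) (v : X) :
    (sg ng pos v = 1 ∧ lab ng pos v = pos v) ∨ (sg ng pos v = -1 ∧ lab ng pos v = pos (ng v)) := by
  unfold sg lab
  split_ifs with hlt
  · exact Or.inl ⟨rfl, min_eq_left hlt.le⟩
  · exact Or.inr ⟨rfl, min_eq_right (not_lt.mp hlt)⟩

theorem lab_inj {X : Type} (ng : X → X) (pos : X → ℕ) (h : ∀ v, ng (ng v) = v)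
    (hpos : Function.Injective pos) (v w : X) (hvw : lab ng pos v = lab ng pos w) :
    v = w ∨ v = ng w := by
  rcases lab_eq ng pos v with ⟨_, h1⟩ | ⟨_, h1⟩ <;> rcases lab_eq ng pos w with ⟨_, h2⟩ | ⟨_, h2⟩
  · exact Or.inl (hpos (by rw [← h1, ← h2, hvw]))
  · exact Or.inr (hpos (by rw [← h1, ← h2, hvw]))
  · have h3 : ng v = w := hpos (by rw [← h1, ← h2, hvw])
    exact Or.inr (by rw [← h3, h])
  · have h3 : ng v = ng w := hpos (by rw [← h1, ← h2, hvw])
    exact Or.inl (by rw [← h v, h3, h])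

end ITc

open ITc in
theorem prTc : StTc := by
  intro hBU hAk X _ _ n ng lam pos hng hne hcont hnn hodd hex hdisj hpos
  -- the odd map
  set g : (Fin (n + 1) → ℝ) → (Fin n → ℝ) := fun x j =>
    ∑ v : X, lam v x * sg ng pos v * ((lab ng pos v : ℕ) : ℝ) ^ (j : ℕ) with hg
  have hgc : Continuous g := by
    refine continuous_pi fun j => ?_
    refine continuous_finsetSum _ fun v _ => ?_
    exact ((hcont v).mul continuous_const).mul continuous_const
  have hgo : ∀ x, g (-x) = - g x := by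
    intro x
    funext j
    have hinv : Function.Involutive ng := hng
    show ∑ v : X, lam v (-x) * sg ng pos v * ((lab ng pos v : ℕ) : ℝ) ^ (j : ℕ)
      = - ∑ v : X, lam v x * sg ng pos v * ((lab ng pos v : ℕ) : ℝ) ^ (j : ℕ)
    rw [← Equiv.sum_comp (Function.Involutive.toPerm ng hinv), ← Finset.sum_neg_distrib]
    refine Finset.sum_congr rfl fun v _ => ?_
    have e1 : (Function.Involutive.toPerm ng hinv) v = ng v := rfl
    rw [e1, hodd, sg_ng ng pos hng hne hpos, lab_ng ng pos hng]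
    ring
  obtain ⟨x, hx1, hx0⟩ := hBU n g hgc hgo
  have hxne : x ≠ 0 := by
    intro hx
    rw [hx, norm_zero] at hx1
    exact zero_ne_one hx1
  obtain ⟨v0, hv0⟩ := hex x hxne
  haveI : Nonempty X := ⟨v0⟩
  classical
  set C : Finset X := Finset.univ.filter (fun v => 0 < lam v x) with hC
  have hCm : ∀ v, v ∈ C ↔ 0 < lam v x := by
    intro v
    simp [hC]
  have hinj : ∀ v ∈ C, ∀ w ∈ C, lab ng pos v = lab ng pos w → v = w := by
    intro v hv w hw hvw
    rcases lab_inj ng pos hng hpos v w hvw with h1 | h1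
    · exact h1
    · exfalso
      refine hdisj w x ⟨(hCm w).mp hw, ?_⟩
      rw [← h1]
      exact (hCm v).mp hv
  set L : Finset ℕ := C.image (lab ng pos) with hL
  set c : ℕ → ℝ := fun l => ∑ v ∈ C.filter (fun v => lab ng pos v = l), lam v x * sg ng pos v
    with hc
  have hcv : ∀ v ∈ C, c (lab ng pos v) = lam v x * sg ng pos v := by
    intro v hv
    have : C.filter (fun w => lab ng pos w = lab ng pos v) = {v} := by
      ext w
      rw [Finset.mem_filter, Finset.mem_singleton]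
      constructor
      · rintro ⟨h1, h2⟩
        exact hinj w h1 v hv h2
      · rintro rfl
        exact ⟨hv, rfl⟩
    show ∑ w ∈ C.filter (fun w => lab ng pos w = lab ng pos v), lam w x * sg ng pos w = _
    rw [this, Finset.sum_singleton]
  have hLne : L.Nonempty := ⟨lab ng pos v0, Finset.mem_image_of_mem _ ((hCm v0).mpr hv0)⟩
  -- the element with a given label
  have key : ∀ a ∈ L, ∃ w : X, pos w = a ∧ ((0 < c a ∧ 0 < lam w x) ∨ (c a < 0 ∧ 0 < lam (ng w) x)) := by
    intro a ha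
    obtain ⟨v, hv, rfl⟩ := Finset.mem_image.mp ha
    have hlv := (hCm v).mp hv
    rcases lab_eq ng pos v with ⟨h1, h2⟩ | ⟨h1, h2⟩
    · refine ⟨v, h2.symm, Or.inl ⟨?_, hlv⟩⟩
      rw [hcv v hv, h1, mul_one]
      exact hlv
    · refine ⟨ng v, h2.symm, Or.inr ⟨?_, ?_⟩⟩
      · rw [hcv v hv, h1]
        linarith
      · rw [hng]
        exact hlv
  have hcne : ∀ a ∈ L, c a ≠ 0 := by
    intro a ha
    obtain ⟨w, _, hw⟩ := key a ha
    rcases hw with hw | hw
    · exact hw.1.ne'
    · exact hw.1.ne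
  have hmom : ∀ j < n, ∑ a ∈ L, c a * (a : ℝ) ^ j = 0 := by
    intro j hj
    have h1 : ∑ a ∈ L, c a * (a : ℝ) ^ j
        = ∑ v ∈ C, lam v x * sg ng pos v * ((lab ng pos v : ℕ) : ℝ) ^ j := by
      rw [hL, Finset.sum_image (fun v hv w hw h => hinj v hv w hw h)]
      refine Finset.sum_congr rfl fun v hv => ?_
      rw [hcv v hv]
    have h2 : ∑ v ∈ C, lam v x * sg ng pos v * ((lab ng pos v : ℕ) : ℝ) ^ j
        = ∑ v : X, lam v x * sg ng pos v * ((lab ng pos v : ℕ) : ℝ) ^ j := by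
      refine Finset.sum_subset (Finset.subset_univ _) fun v _ hv => ?_
      have h3 : lam v x = 0 := le_antisymm (not_lt.mp fun h => hv ((hCm v).mpr h)) (hnn v x)
      rw [h3]
      ring
    have h3 := congrFun hx0 ⟨j, hj⟩
    rw [h1, h2]
    exact h3
  obtain ⟨l, hl, hal⟩ := hAk n c L hLne hcne hmom
  choose! P hP using key
  have hmem : ∀ a ∈ l, a ∈ L := hal.2
  refine ⟨x, (l.map P).reverse, hxne, ?_, ?_, ?_, ?_⟩
  · rw [List.length_reverse, List.length_map, hl]
  · rw [List.pairwise_reverse, List.pairwise_map]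
    have h1 : l.IsChain (fun a b => b < a) := hal.1.imp (fun a b h => h.1)
    have h2 : l.Pairwise (fun a b => b < a) := by
      haveI : Trans (fun a b : ℕ => b < a) (fun a b : ℕ => b < a) (fun a b : ℕ => b < a) :=
        ⟨fun {a b c} h h' => lt_trans h' h⟩
      exact List.isChain_iff_pairwise.mp h1
    refine h2.imp_of_mem ?_
    intro a b ha hb hab
    rw [(hP a (hmem a ha)).1, (hP b (hmem b hb)).1]
    exact hab
  · rw [List.isChain_reverse, List.isChain_map]
    refine List.IsChain.imp_of_mem_imp (R := fun a b => b < a ∧ c a * c b < 0) ?_ hal.1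
    intro a b ha hb hab
    have hPa := (hP a (hmem a ha)).2
    have hPb := (hP b (hmem b hb)).2
    rcases hPa with ⟨ha1, ha2⟩ | ⟨ha1, ha2⟩ <;> rcases hPb with ⟨hb1, hb2⟩ | ⟨hb1, hb2⟩
    · exact absurd hab.2 (not_lt.mpr (mul_pos ha1 hb1).le)
    · exact Or.inr ⟨hb2, ha2⟩
    · exact Or.inl ⟨hb2, ha2⟩
    · exact absurd hab.2 (not_lt.mpr (mul_pos_of_neg_of_neg ha1 hb1).le)
  · intro a ha
    rw [List.mem_reverse, List.mem_map] at ha
    obtain ⟨b, hb, rfl⟩ := ha
    rcases (hP b (hmem b hb)).2 with h | h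
    · exact Or.inl h.2
    · exact Or.inr h.2

end Pool.Agent.UTSP.BR
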