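import Pool.Agent.Work.MP_27a5a0_lc.BR.Stmts
import Pool.Agent.Work.MP_27a5a0_lc.T1
import Pool.Agent.Work.MP_27a5a0_lc.T2

/-!
# Item Tri of block BR: the perimeter of a triangle
-/

set_option autoImplicit false

namespace Pool.Agent.UTSP.BR

open Finset Pool.Agent.UTSP

namespace ITri

theorem two {X : Type} [DecidableEq X] {δ : X → X → ℝ} (h : IsMet δ) {σ : List X} (hσ : σ.Nodup)
    {x y : X} (hx : x ∈ σ) (hy : y ∈ σ) : δ x y + δ y x ≤ cyc δ σ := by
  by_cases hxy : x = y
  · subst hxy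
    rw [h.self, add_zero]
    exact (prfSepCost X δ h).1 σ
  refine le_trans ?_ (prfFilter X δ h (fun w => decide (w = x ∨ w = y)) σ)
  obtain ⟨f, hf⟩ : ∃ f, f = σ.filter (fun w => decide (w = x ∨ w = y)) := ⟨_, rfl⟩
  have hmem : ∀ w, w ∈ f ↔ w = x ∨ w = y := by
    intro w
    rw [hf, List.mem_filter, decide_eq_true_iff]
    constructor
    · exact fun h => h.2
    · rintro (rfl | rfl)
      · exact ⟨hx, Or.inl rfl⟩
      · exact ⟨hy, Or.inr rfl⟩
  have hn : f.Nodup := by rw [hf]; exact hσ.filter _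
  rw [← hf]
  have hp : f.Perm [x, y] := by
    rw [List.perm_ext_iff_of_nodup hn (by simp [hxy])]
    intro w
    rw [hmem]
    simp
  have hl := hp.length_eq
  obtain ⟨a, b, hab⟩ := List.length_eq_two.1 (hl.trans rfl)
  rw [hab] at hmem hn ⊢
  have ha := (hmem a).1 (by simp)
  have hb := (hmem b).1 (by simp)
  have hne : a ≠ b := by
    rintro rfl
    simp at hn
  have e : cyc δ [a, b] = δ a b + δ b a := by simp [cyc, walk]
  rw [e]
  rcases ha with rfl | rfl <;> rcases hb with rfl | rfl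
  · exact absurd rfl hne
  · exact le_rfl
  · rw [add_comm]
  · exact absurd rfl hne

theorem three {X : Type} [DecidableEq X] {δ : X → X → ℝ} (h : IsMet δ) {σ : List X}
    (hσ : σ.Nodup) {x y z : X} (hx : x ∈ σ) (hy : y ∈ σ) (hz : z ∈ σ) (hxy : x ≠ y) (hxz : x ≠ z)
    (hyz : y ≠ z) : δ x y + δ y z + δ z x ≤ cyc δ σ := by
  refine le_trans ?_ (prfFilter X δ h (fun w => decide (w = x ∨ w = y ∨ w = z)) σ)
  obtain ⟨f, hf⟩ : ∃ f, f = σ.filter (fun w => decide (w = x ∨ w = y ∨ w = z)) := ⟨_, rfl⟩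
  have hmem : ∀ w, w ∈ f ↔ w = x ∨ w = y ∨ w = z := by
    intro w
    rw [hf, List.mem_filter, decide_eq_true_iff]
    constructor
    · exact fun h => h.2
    · rintro (rfl | rfl | rfl)
      · exact ⟨hx, Or.inl rfl⟩
      · exact ⟨hy, Or.inr (Or.inl rfl)⟩
      · exact ⟨hz, Or.inr (Or.inr rfl)⟩
  have hn : f.Nodup := by rw [hf]; exact hσ.filter _
  rw [← hf]
  have hp : f.Perm [x, y, z] := by
    rw [List.perm_ext_iff_of_nodup hn (by simp [hxy, hxz, hyz])]
    intro w
    rw [hmem]
    simp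
  have hl := hp.length_eq
  obtain ⟨a, b, c, habc⟩ := List.length_eq_three.1 (hl.trans rfl)
  rw [habc] at hmem hn ⊢
  have ha := (hmem a).1 (by simp)
  have hb := (hmem b).1 (by simp)
  have hc := (hmem c).1 (by simp)
  simp only [List.nodup_cons, List.mem_cons, List.not_mem_nil, or_false, not_or,
    List.nodup_nil, and_true, not_false_eq_true] at hn
  obtain ⟨⟨hab, hac⟩, hbc⟩ := hn
  have e : cyc δ [a, b, c] = δ a b + (δ b c + δ c a) := by simp [cyc, walk]
  rw [e]
  clear e hmem hp hl habc hf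
  have s1 := h.symm x y
  have s2 := h.symm y z
  have s3 := h.symm x z
  rcases ha with ha | ha | ha <;> rcases hb with hb | hb | hb <;>
    rcases hc with hc | hc | hc <;>
    first
      | exact absurd (ha.trans hb.symm) hab
      | exact absurd (ha.trans hc.symm) hac
      | exact absurd (hb.trans hc.symm) hbc
      | (rw [ha, hb, hc]; linarith)

end ITri

theorem prTri : StTri := by
  intro X _ δ h σ hσ x hx y hy z hz
  by_cases hxy : x = y
  · subst hxy
    rw [h.self, zero_add]
    exact ITri.two h hσ hx hz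
  by_cases hyz : y = z
  · subst hyz
    rw [h.self, add_zero]
    exact ITri.two h hσ hx hy
  by_cases hxz : x = z
  · subst hxz
    rw [h.self, add_zero]
    exact ITri.two h hσ hx hy
  exact ITri.three h hσ hx hy hz hxy hxz hyz

end Pool.Agent.UTSP.BR
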