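import Pool.Agent.Work.MP_27a5a0_lc.BR.Stmts

/-! # MP_27a5a0_lc, block BR, item Ub -/

set_option autoImplicit false

namespace Pool.Agent.UTSP.BR

open Finset Pool.Agent.UTSP

namespace IUb

/-- the shift does not change a sum over `ZMod (m + 1)` -/
theorem sum_shift (m : ℕ) (f : ZMod (m + 1) → ℝ) (a : ZMod (m + 1)) :
    ∑ i, f (i + a) = ∑ i, f i :=
  Equiv.sum_comp (Equiv.addRight a) f

end IUb

theorem prUb : StUb := by
  intro hTri hCy1 hCy2 X _ δ hδ l σ hl hσ hlen hopt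
  obtain ⟨m, hm⟩ : ∃ m, l.length = m + 1 := ⟨l.length - 1, by omega⟩
  obtain ⟨p, hp1, hp2, hp3⟩ := hCy1 X δ m l hm
  have hpinj := hp2 hl
  have hmem : ∀ i, p i ∈ σ := by
    intro i
    have h1 : p i ∈ l := (hp1 (p i)).2 ⟨i, rfl⟩
    rw [← List.mem_toFinset, hσ.2, List.mem_toFinset]
    exact h1
  have htri : ∀ i, δ (p i) (p (i + 1)) + δ (p (i + 1)) (p (i + 1 + 1)) + δ (p (i + 1 + 1)) (p i) ≤
      cyc δ σ := fun i => hTri X δ hδ σ hσ.1 _ (hmem _) _ (hmem _) _ (hmem _)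
  have htwo : ∀ i, 2 * δ (p i) (p (i + 1)) ≤ cyc δ σ := by
    intro i
    have h := hTri X δ hδ σ hσ.1 _ (hmem i) _ (hmem (i + 1)) _ (hmem i)
    rw [hδ.self, hδ.symm (p (i + 1)) (p i)] at h
    linarith
  have hcard : (Finset.univ : Finset (ZMod (m + 1))).card = m + 1 := by
    rw [Finset.card_univ, ZMod.card]
  rcases Nat.even_or_odd' (m + 1) with ⟨h, hh | hh⟩
  · have h1 : 2 * cyc δ l ≤ ∑ _i : ZMod (m + 1), cyc δ σ := by
      rw [hp3, Finset.mul_sum]
      exact Finset.sum_le_sum fun i _ => htwo i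
    rw [Finset.sum_const, hcard, nsmul_eq_mul] at h1
    have h2 : l.length / 2 = h := by omega
    rw [h2]
    have h3 : ((m + 1 : ℕ) : ℝ) = 2 * (h : ℝ) := by
      rw [hh]; push_cast; ring
    rw [h3] at h1
    linarith
  · -- the odd case
    have hcop : Nat.Coprime 2 (m + 1) := by
      rw [Nat.coprime_two_left, hh]
      exact odd_two_mul_add_one h
    have hu : IsUnit ((2 : ℕ) : ZMod (m + 1)) := (ZMod.isUnit_iff_coprime 2 (m + 1)).2 hcop
    obtain ⟨u, hu⟩ := hu
    let e : ZMod (m + 1) ≃ ZMod (m + 1) := Units.mulLeft u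
    have he : ∀ i, e i = 2 * i := by
      intro i
      show (u : ZMod (m + 1)) * i = 2 * i
      rw [hu]; norm_num
    obtain ⟨l', hl1, hl2, hl3, hl4⟩ := hCy2 X δ m (fun i => p (e i))
    have hord : IsOrd l.toFinset l' := by
      refine ⟨hl3 (hpinj.comp e.injective), ?_⟩
      ext x
      rw [List.mem_toFinset, List.mem_toFinset, hl2, hp1]
      constructor
      · rintro ⟨i, hi⟩
        exact ⟨e i, hi⟩
      · rintro ⟨i, hi⟩
        exact ⟨e.symm i, by rw [Equiv.apply_symm_apply]; exact hi⟩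
    have hle := hopt l' hord
    have hcyc' : cyc δ l' = ∑ i, δ (p i) (p (i + 1 + 1)) := by
      rw [hl4, ← Equiv.sum_comp e (fun i => δ (p i) (p (i + 1 + 1)))]
      refine Finset.sum_congr rfl fun i _ => ?_
      have h1 : e (i + 1) = e i + 1 + 1 := by
        rw [he, he]; ring
      rw [h1]
    have hs : ∑ i, (δ (p i) (p (i + 1)) + δ (p (i + 1)) (p (i + 1 + 1)) +
        δ (p (i + 1 + 1)) (p i)) ≤ ∑ _i : ZMod (m + 1), cyc δ σ :=
      Finset.sum_le_sum fun i _ => htri i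
    rw [Finset.sum_add_distrib, Finset.sum_add_distrib,
      IUb.sum_shift m (fun i => δ (p i) (p (i + 1))) 1, Finset.sum_const, hcard, nsmul_eq_mul,
      ← hp3] at hs
    have h5 : ∑ i, δ (p (i + 1 + 1)) (p i) = cyc δ l' := by
      rw [hcyc']
      exact Finset.sum_congr rfl fun i _ => hδ.symm _ _
    rw [h5] at hs
    have h2 : l.length / 2 = h := by omega
    rw [h2]
    have h3 : ((m + 1 : ℕ) : ℝ) = 2 * (h : ℝ) + 1 := by
      rw [hh]; push_cast; ring
    rw [h3] at hs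
    linarith

end Pool.Agent.UTSP.BR
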