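import Pool.Agent.Work.MP_27a5a0_lc.BR.Stmts
import Pool.Agent.Work.MP_27a5a0_lc.T5

/-!
MP_27a5a0_lc, block BR, item Up: the upper bound for requests with at most `k` points.
-/

set_option autoImplicit false

namespace Pool.Agent.UTSP.BR

open Finset Pool.Agent.UTSP Polynomial

namespace IUp

theorem walk_nonneg {X : Type} (δ : X → X → ℝ) (h : ∀ x y, 0 ≤ δ x y) :
    ∀ l : List X, 0 ≤ walk δ l
  | [] => le_refl _
  | [_] => le_refl _
  | x :: y :: l => add_nonneg (h x y) (walk_nonneg δ h (y :: l))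

theorem cyc_nonneg {X : Type} (δ : X → X → ℝ) (h : ∀ x y, 0 ≤ δ x y) :
    ∀ l : List X, 0 ≤ cyc δ l
  | [] => le_refl _
  | _ :: _ => walk_nonneg δ h _

theorem opt_eq {X : Type} [DecidableEq X] (δ : X → X → ℝ) (S : Finset X) (σ : List X)
    (hσ : IsOrd S σ) (hmin : ∀ σ' : List X, IsOrd S σ' → cyc δ σ ≤ cyc δ σ') :
    opt δ S = cyc δ σ := by
  unfold opt
  apply IsLeast.csInf_eq
  refine ⟨⟨σ, hσ, rfl⟩, ?_⟩
  rintro c ⟨σ', h', rfl⟩
  exact hmin σ' h'

end IUp

theorem prUp : StUp := by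
  intro hub k n
  unfold RK
  refine iSup_le fun m => ?_
  letI := m
  obtain ⟨δ, hδ⟩ : ∃ δ : Fin n → Fin n → ℝ, δ = fun x y => m.dist x y := ⟨_, rfl⟩
  have hnn : ∀ x y, 0 ≤ δ x y := by
    intro x y
    rw [hδ]
    exact dist_nonneg
  have hmet : IsMet δ := by
    subst hδ
    constructor
    · intro x
      exact dist_self x
    · intro x y h
      exact dist_pos.2 h
    · intro x y
      exact dist_comm x y
    · intro x y z
      exact dist_triangle x y z
  have hord : IsOrd (Finset.univ : Finset (Fin n)) (List.finRange n) :=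
    ⟨List.nodup_finRange n, by ext x; simp⟩
  refine iInf_le_of_le ⟨List.finRange n, hord⟩ ?_
  rw [← hδ]
  unfold ratioK
  refine iSup_le fun T => ?_
  obtain ⟨S, h2, hk⟩ := T
  dsimp only
  obtain ⟨σ, hσ, hmin⟩ := T5aux.exists_opt δ S
  have hopt : opt δ S = cyc δ σ := IUp.opt_eq δ S σ hσ hmin
  obtain ⟨l, hl⟩ : ∃ l : List (Fin n), l = (List.finRange n).filter (fun x => decide (x ∈ S)) :=
    ⟨_, rfl⟩
  rw [← hl]
  have hnd : l.Nodup := by
    rw [hl]
    exact (List.nodup_finRange n).filter _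
  have hlS : l.toFinset = S := by
    ext x
    rw [hl]
    simp
  have hlen : l.length = S.card := by
    rw [← hlS, List.toFinset_card_of_nodup hnd]
  have h := hub (Fin n) δ hmet l σ hnd (by rw [hlS]; exact hσ) (by omega)
    (by rw [hlS]; exact hmin)
  have h0 : 0 ≤ cyc δ σ := IUp.cyc_nonneg δ hnn σ
  have hq : ((l.length / 2 : ℕ) : ℝ) ≤ ((k / 2 : ℕ) : ℝ) := by
    have : l.length / 2 ≤ k / 2 := Nat.div_le_div_right (by omega)
    exact_mod_cast this
  have hfin : cyc δ l / opt δ S ≤ ((k / 2 : ℕ) : ℝ) := by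
    rw [hopt]
    rcases h0.eq_or_lt with h0 | h0
    · rw [← h0, div_zero]
      exact Nat.cast_nonneg _
    · rw [div_le_iff₀ h0]
      exact h.trans (mul_le_mul_of_nonneg_right hq h0.le)
  calc ENNReal.ofReal (cyc δ l / opt δ S) ≤ ENNReal.ofReal ((k / 2 : ℕ) : ℝ) :=
        ENNReal.ofReal_le_ofReal hfin
    _ = ((k / 2 : ℕ) : ENNReal) := ENNReal.ofReal_natCast _

end Pool.Agent.UTSP.BR
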