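import Pool.Agent.Work.MP_27a5a0_lc.BR.Stmts

/-! Item Vm of block BR: the points of given norm. -/

set_option autoImplicit false

namespace Pool.Agent.UTSP.BR

open Finset

theorem prVm : StVm := by
  intro d N v
  unfold Vs
  rw [Finset.mem_filter, Fintype.mem_piFinset]
  refine ⟨fun h => h.2, fun h => ⟨fun i => ?_, h⟩⟩
  rw [Finset.mem_Icc]
  have h1 : |v i| ≤ ∑ j, |v j| :=
    Finset.single_le_sum (f := fun j => |v j|) (fun j _ => abs_nonneg _) (Finset.mem_univ i)
  rw [h] at h1
  exact abs_le.1 h1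

end Pool.Agent.UTSP.BR
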