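import Pool.Agent.Work.MP_27a5a0_lc.BR.Stmts

/-!
Block BR, item W1: continuity and positivity of the weights.
-/

set_option autoImplicit false

namespace Pool.Agent.UTSP.BR

open Finset

namespace IW1

theorem ps_neg {d : ℕ} (x : Fin d → ℝ) (i : ℕ) : ps (-x) i = ps x i := by
  unfold ps
  refine Finset.sum_congr rfl fun j _ => ?_
  rw [Pi.neg_apply, abs_neg]

theorem pz_neg {d : ℕ} (v : Fin d → ℤ) (i : ℕ) : pz (-v) i = pz v i := by
  unfold pz
  refine Finset.sum_congr rfl fun j _ => ?_
  rw [Pi.neg_apply, abs_neg]

theorem Dd_neg {d : ℕ} (N : ℕ) (v : Fin d → ℤ) (x : Fin d → ℝ) (i : ℕ) :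
    Dd N (-v) (-x) i = Dd N v x i := by
  unfold Dd
  rw [ps_neg, ps_neg, pz_neg]

theorem ps_cont {d : ℕ} (i : ℕ) : Continuous (fun x : Fin d → ℝ => ps x i) := by
  unfold ps
  refine continuous_finset_sum _ fun j _ => ?_
  split_ifs
  · exact (continuous_apply j).abs
  · exact continuous_const

theorem Dd_cont {d : ℕ} (N : ℕ) (v : Fin d → ℤ) (i : ℕ) :
    Continuous (fun x : Fin d → ℝ => Dd N v x i) := by
  unfold Dd
  exact ((ps_cont d).mul continuous_const).sub (continuous_const.mul (ps_cont i))

theorem max_ne {a : ℝ} : max 0 a ≠ 0 ↔ 0 < a := by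
  constructor
  · intro h
    by_contra hn
    exact h (max_eq_left (not_lt.1 hn))
  · intro h
    rw [max_eq_right h.le]
    exact h.ne'

theorem nonneg {d : ℕ} (N : ℕ) (v : Fin d → ℤ) (x : Fin d → ℝ) : 0 ≤ wt N v x := by
  unfold wt
  refine mul_nonneg (Finset.prod_nonneg fun i _ => Finset.prod_nonneg fun j _ =>
    le_max_left _ _) (Finset.prod_nonneg fun i _ => ?_)
  split_ifs
  · exact zero_le_one
  · exact le_max_left _ _

end IW1

open IW1 in
theorem prW1 : StW1 := by
  intro d N v
  refine ⟨?_, nonneg N v, ?_, ?_⟩
  · unfold wt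
    refine Continuous.mul ?_ ?_
    · refine continuous_finset_prod _ fun i _ => continuous_finset_prod _ fun j _ => ?_
      exact continuous_const.max ((ps_cont d).sub ((Dd_cont N v i).sub (Dd_cont N v j)))
    · refine continuous_finset_prod _ fun i _ => ?_
      split_ifs
      · exact continuous_const
      · exact continuous_const.max (continuous_const.mul (continuous_apply i))
  · intro x
    unfold wt
    congr 1
    · refine Finset.prod_congr rfl fun i _ => Finset.prod_congr rfl fun j _ => ?_
      rw [Dd_neg, Dd_neg, ps_neg]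
    · refine Finset.prod_congr rfl fun i _ => ?_
      simp only [Pi.neg_apply, neg_eq_zero, Int.cast_neg, neg_mul_neg]
  · intro x
    have h0 : 0 < wt N v x ↔ wt N v x ≠ 0 :=
      ⟨fun h => h.ne', fun h => lt_of_le_of_ne (nonneg N v x) (Ne.symm h)⟩
    rw [h0]
    unfold wt
    rw [mul_ne_zero_iff, Finset.prod_ne_zero_iff, Finset.prod_ne_zero_iff]
    refine and_congr ?_ ?_
    · constructor
      · intro h i hi j hj
        have h1 := (Finset.prod_ne_zero_iff.1 (h i (Finset.mem_range.2 (by omega)))) j
          (Finset.mem_range.2 (by omega))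
        have h2 := max_ne.1 h1
        linarith
      · intro h i hi
        rw [Finset.mem_range] at hi
        refine Finset.prod_ne_zero_iff.2 fun j hj => ?_
        rw [Finset.mem_range] at hj
        refine max_ne.2 ?_
        have := h i (by omega) j (by omega)
        linarith
    · constructor
      · intro h i hi
        have h1 := h i (Finset.mem_univ i)
        rw [if_neg hi] at h1
        exact max_ne.1 h1
      · intro h i _
        by_cases hi : v i = 0
        · rw [if_pos hi]
          exact one_ne_zero
        · rw [if_neg hi]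
          exact max_ne.2 (h i hi)

end Pool.Agent.UTSP.BR
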