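import Pool.Agent.Work.MP_27a5a0_lc.BR.Stmts

/-!
# MP_27a5a0_lc, block BR, item W2: a point of positive weight
-/

set_option autoImplicit false

namespace Pool.Agent.UTSP.BR

open Finset Pool.Agent.UTSP

namespace IW2

theorem psum_zero {A : Type} [AddCommMonoid A] {d : ℕ} (g : Fin d → A) :
    (∑ j : Fin d, if j.val < 0 then g j else 0) = 0 := by
  refine Finset.sum_eq_zero fun j _ => ?_
  rw [if_neg (Nat.not_lt_zero _)]

theorem psum_full {A : Type} [AddCommMonoid A] {d : ℕ} (g : Fin d → A) :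
    (∑ j : Fin d, if j.val < d then g j else 0) = ∑ j, g j := by
  refine Finset.sum_congr rfl fun j _ => ?_
  rw [if_pos j.2]

theorem psum_succ {A : Type} [AddCommMonoid A] {d : ℕ} (g : Fin d → A) (i : Fin d) :
    (∑ j : Fin d, if j.val < i.val + 1 then g j else 0) =
      (∑ j : Fin d, if j.val < i.val then g j else 0) + g i := by
  have h1 : ∀ j : Fin d, (if j.val < i.val + 1 then g j else 0) =
      (if j.val < i.val then g j else 0) + (if j = i then g j else 0) := by
    intro j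
    by_cases h : j = i
    · rw [h, if_pos (Nat.lt_succ_self _), if_neg (lt_irrefl _), if_pos rfl, zero_add]
    · have h' : j.val ≠ i.val := fun h'' => h (Fin.ext h'')
      rw [if_neg h, add_zero]
      by_cases h2 : j.val < i.val
      · rw [if_pos h2, if_pos (by omega)]
      · rw [if_neg h2, if_neg (by omega)]
  rw [Finset.sum_congr rfl fun j _ => h1 j, Finset.sum_add_distrib]
  congr 1
  rw [Finset.sum_ite_eq' Finset.univ i g, if_pos (Finset.mem_univ _)]

end IW2

open IW2 in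
theorem prW2 : StW2 := by
  intro hW1 d N hN x hx
  obtain ⟨-, -, -, hpos⟩ := hW1 d N 0
  -- the total
  have hLs : ps x d = ∑ j, |x j| := psum_full fun j => |x j|
  have hL : 0 < ps x d := by
    rw [hLs]
    obtain ⟨i, hi⟩ := Function.ne_iff.1 hx
    exact Finset.sum_pos' (fun j _ => abs_nonneg _) ⟨i, Finset.mem_univ _, abs_pos.2 hi⟩
  set L := ps x d with hLdef
  have hp0 : ps x 0 = 0 := psum_zero fun j => |x j|
  have hps : ∀ i : Fin d, ps x (i.val + 1) = ps x i.val + |x i| := fun i =>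
    psum_succ (fun j => |x j|) i
  obtain ⟨y, hy⟩ : ∃ y : ℕ → ℝ, y = fun i => (N : ℝ) * ps x i / L := ⟨_, rfl⟩
  have hyL : ∀ i, L * y i = N * ps x i := by
    intro i
    rw [hy]
    field_simp
  have hys : ∀ i : Fin d, y (i.val + 1) = y i.val + (N : ℝ) * |x i| / L := by
    intro i
    rw [hy]
    beta_reduce
    rw [hps i]
    ring
  have hy0 : y 0 = 0 := by
    rw [hy]
    beta_reduce
    rw [hp0]
    simp
  have hyd : y d = N := by
    have h := hyL d
    rw [← hLdef, mul_comm] at h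
    exact mul_right_cancel₀ hL.ne' h
  have hmono : ∀ i : Fin d, ⌊y i.val⌋ ≤ ⌊y (i.val + 1)⌋ := by
    intro i
    refine Int.floor_le_floor ?_
    rw [hys i]
    have : 0 ≤ (N : ℝ) * |x i| / L := by positivity
    linarith
  obtain ⟨v, hv⟩ : ∃ v : Fin d → ℤ, v = fun i => if 0 ≤ x i then ⌊y (i.val + 1)⌋ - ⌊y i.val⌋
      else -(⌊y (i.val + 1)⌋ - ⌊y i.val⌋) := ⟨_, rfl⟩
  have hvabs : ∀ i : Fin d, |v i| = ⌊y (i.val + 1)⌋ - ⌊y i.val⌋ := by
    intro i
    have h1 := hmono i
    have h2 : 0 ≤ ⌊y (i.val + 1)⌋ - ⌊y i.val⌋ := by omega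
    rw [hv]
    beta_reduce
    by_cases h : 0 ≤ x i
    · rw [if_pos h, abs_of_nonneg h2]
    · rw [if_neg h, abs_neg, abs_of_nonneg h2]
  have hpz : ∀ i, i ≤ d → pz v i = ⌊y i⌋ := by
    intro i
    induction i with
    | zero =>
      intro _
      rw [hy0, Int.floor_zero]
      exact psum_zero fun j => |v j|
    | succ i ih =>
      intro hi
      have h1 : pz v (i + 1) = pz v i + |v ⟨i, hi⟩| := psum_succ (fun j => |v j|) ⟨i, hi⟩
      rw [h1, ih (by omega), hvabs ⟨i, hi⟩]
      ring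
  refine ⟨v, ?_, ?_⟩
  · have h1 : pz v d = ∑ j, |v j| := psum_full fun j => |v j|
    rw [← h1, hpz d le_rfl, hyd]
    simp
  · rw [(hW1 d N v).2.2.2 x]
    refine ⟨?_, ?_⟩
    · intro i hi j hj
      have hD : ∀ k, k ≤ d → Dd N v x k = -(L * (y k - ⌊y k⌋)) := by
        intro k hk
        have h1 : Dd N v x k = L * (pz v k : ℝ) - N * ps x k := rfl
        rw [h1, hpz k hk, ← hyL k]
        ring
      rw [hD i hi, hD j hj]
      have h1 : 0 ≤ y i - ⌊y i⌋ := sub_nonneg.2 (Int.floor_le _)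
      have h2 : y j - ⌊y j⌋ < 1 := by
        have := Int.lt_floor_add_one (y j)
        linarith
      have h3 : 0 ≤ L * (y i - ⌊y i⌋) := mul_nonneg hL.le h1
      have h4 : L * (y j - ⌊y j⌋) < L * 1 := mul_lt_mul_of_pos_left h2 hL
      linarith
    · intro i hi
      have h1 := hmono i
      have hne : ⌊y (i.val + 1)⌋ - ⌊y i.val⌋ ≠ 0 := by
        rw [← hvabs i]
        exact abs_ne_zero.2 hi
      have h2 : 0 < ⌊y (i.val + 1)⌋ - ⌊y i.val⌋ := by omega
      have h3 : (0 : ℝ) < ((⌊y (i.val + 1)⌋ - ⌊y i.val⌋ : ℤ) : ℝ) := by exact_mod_cast h2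
      rw [hv]
      beta_reduce
      rcases lt_trichotomy (x i) 0 with h | h | h
      · rw [if_neg (not_le.2 h), Int.cast_neg]
        exact mul_pos_of_neg_of_neg (neg_lt_zero.2 h3) h
      · exfalso
        apply hne
        rw [hys i, h, abs_zero, mul_zero, zero_div, add_zero, sub_self]
      · rw [if_pos h.le]
        exact mul_pos h3 h

end Pool.Agent.UTSP.BR
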