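import Pool.Agent.Work.MP_27a5a0_lc.BR.Stmts

/-! Item W3 of the block [27a5a0 BR]. -/

set_option autoImplicit false

namespace Pool.Agent.UTSP.BR

open Finset Pool.Agent.UTSP

namespace IW3

theorem pz_zero {d : ℕ} (v : Fin d → ℤ) : pz v 0 = 0 := by
  unfold pz
  apply Finset.sum_eq_zero
  intro j _
  rw [if_neg (Nat.not_lt_zero _)]

theorem pz_top {d : ℕ} (v : Fin d → ℤ) : pz v d = ∑ i, |v i| := by
  unfold pz
  apply Finset.sum_congr rfl
  intro j _
  rw [if_pos j.isLt]

theorem pz_succ {d : ℕ} (v : Fin d → ℤ) (i : Fin d) : pz v (i.val + 1) = pz v i.val + |v i| := by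
  unfold pz
  have h : ∀ j : Fin d, (if j.val < i.val + 1 then |v j| else 0) =
      (if j.val < i.val then |v j| else 0) + (if j = i then |v j| else 0) := by
    intro j
    by_cases h1 : j.val < i.val
    · have h2 : j ≠ i := by
        rintro rfl
        exact lt_irrefl _ h1
      rw [if_pos h1, if_neg h2, if_pos (by omega), add_zero]
    · by_cases h2 : j = i
      · subst h2
        rw [if_pos (by omega), if_neg h1, if_pos rfl, zero_add]
      · have h3 : j.val ≠ i.val := fun h => h2 (Fin.ext h)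
        rw [if_neg (by omega), if_neg h1, if_neg h2, add_zero]
  rw [Finset.sum_congr rfl (fun j _ => h j), Finset.sum_add_distrib]
  congr 1
  rw [Finset.sum_ite_eq' Finset.univ i (fun j => |v j|), if_pos (Finset.mem_univ i)]

/-- numbers of the same sign -/
theorem same_sign {p q : ℤ} {x : ℝ} (hp : p ≠ 0 → 0 < (p : ℝ) * x) (hq : q ≠ 0 → 0 < (q : ℝ) * x) :
    |p - q| = |(|p| - |q|)| ∧ |p + q| = |p| + |q| := by
  rcases eq_or_ne p 0 with h | h
  · subst h
    simp
  rcases eq_or_ne q 0 with h' | h'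
  · subst h'
    simp
  have h1 := hp h
  have h2 := hq h'
  rcases lt_trichotomy x 0 with hx | hx | hx
  · have h3 : (p : ℝ) < 0 := by nlinarith
    have h4 : (q : ℝ) < 0 := by nlinarith
    have h5 : p < 0 := by exact_mod_cast h3
    have h6 : q < 0 := by exact_mod_cast h4
    rw [abs_of_neg h5, abs_of_neg h6]
    constructor
    · rw [show -p - -q = -(p - q) by ring, abs_neg]
    · rw [abs_of_neg (by omega)]
      ring
  · rw [hx, mul_zero] at h1
    exact absurd h1 (lt_irrefl _)
  · have h3 : (0 : ℝ) < p := by nlinarith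
    have h4 : (0 : ℝ) < q := by nlinarith
    have h5 : 0 < p := by exact_mod_cast h3
    have h6 : 0 < q := by exact_mod_cast h4
    rw [abs_of_pos h5, abs_of_pos h6]
    exact ⟨rfl, abs_of_pos (by omega)⟩

/-- the combinatorial part: a sequence with values in one of `{0,1}`, `{0,-1}`. -/
theorem seq_bound (d : ℕ) (hd : 1 ≤ d) (a : ℕ → ℤ) (h0 : a 0 = 0) (h1 : a d = 0)
    (h : ∀ i ≤ d, ∀ j ≤ d, a i - a j ≤ 1) :
    |∑ i ∈ range (d + 1), a i| = ∑ i ∈ range (d + 1), |a i| ∧
      ∑ i ∈ range (d + 1), |a i| ≤ (d : ℤ) - 1 := by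
  have hb : ∀ i ≤ d, |a i| ≤ 1 := by
    intro i hi
    have e1 := h i hi 0 (Nat.zero_le _)
    have e2 := h 0 (Nat.zero_le _) i hi
    rw [abs_le]
    constructor <;> omega
  constructor
  · by_cases hc : ∃ i ≤ d, 0 < a i
    · obtain ⟨i, hi, hpos⟩ := hc
      have hn : ∀ j ∈ range (d + 1), 0 ≤ a j := by
        intro j hj
        have := h i hi j (by rw [Finset.mem_range] at hj; omega)
        omega
      rw [abs_of_nonneg (Finset.sum_nonneg hn)]
      exact Finset.sum_congr rfl fun j hj => (abs_of_nonneg (hn j hj)).symm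
    · push Not at hc
      have hn : ∀ j ∈ range (d + 1), a j ≤ 0 := by
        intro j hj
        exact hc j (by rw [Finset.mem_range] at hj; omega)
      rw [abs_of_nonpos (Finset.sum_nonpos hn), ← Finset.sum_neg_distrib]
      exact Finset.sum_congr rfl fun j hj => (abs_of_nonpos (hn j hj)).symm
  · obtain ⟨e, rfl⟩ : ∃ e, d = e + 1 := ⟨d - 1, by omega⟩
    rw [Finset.sum_range_succ, h1, Finset.sum_range_succ', h0, abs_zero, add_zero, add_zero]
    calc ∑ k ∈ range e, |a (k + 1)| ≤ ∑ _k ∈ range e, (1 : ℤ) := by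
          apply Finset.sum_le_sum
          intro k hk
          rw [Finset.mem_range] at hk
          exact hb (k + 1) (by omega)
      _ = ((e + 1 : ℕ) : ℤ) - 1 := by simp

end IW3

open IW3 in
theorem prW3 : StW3 := by
  intro hW1 d N hN v w x hv hw hpv hpw
  obtain ⟨hv1, hv2⟩ := ((hW1 d N v).2.2.2 x).1 hpv
  obtain ⟨hw1, hw2⟩ := ((hW1 d N w).2.2.2 x).1 hpw
  have hL : 0 < ps x d := by
    have := hv1 0 (Nat.zero_le _) 0 (Nat.zero_le _)
    rwa [sub_self] at this
  have hd : 1 ≤ d := by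
    rcases Nat.eq_zero_or_pos d with h | h
    · subst h
      simp at hv
      omega
    · exact h
  obtain ⟨a, ha⟩ : ∃ a : ℕ → ℤ, a = fun i => pz v i - pz w i := ⟨_, rfl⟩
  have ha0 : a 0 = 0 := by rw [ha]; simp [pz_zero]
  have had : a d = 0 := by
    rw [ha]
    simp only [pz_top]
    rw [hv, hw, sub_self]
  have hij : ∀ i ≤ d, ∀ j ≤ d, a i - a j ≤ 1 := by
    intro i hi j hj
    have e1 := hv1 i hi j hj
    have e2 := hw1 j hj i hi
    have e3 : ps x d * (((a i - a j : ℤ)) : ℝ) < ps x d * 2 := by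
      have e4 : ps x d * (((a i - a j : ℤ)) : ℝ) =
          (Dd N v x i - Dd N v x j) + (Dd N w x j - Dd N w x i) := by
        rw [ha]
        unfold Dd
        push_cast
        ring
      rw [e4]
      linarith
    have e5 : (((a i - a j : ℤ)) : ℝ) < 2 := lt_of_mul_lt_mul_left e3 hL.le
    have e6 : a i - a j < 2 := by exact_mod_cast e5
    omega
  obtain ⟨hs1, hs2⟩ := seq_bound d hd a ha0 had hij
  have hT : (Ts v : ℝ) - (Ts w : ℝ) = ((∑ i ∈ range (d + 1), a i : ℤ) : ℝ) := by
    unfold Ts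
    rw [ha, Finset.sum_sub_distrib]
    push_cast
    rfl
  have hTabs : |(Ts v : ℝ) - (Ts w : ℝ)| = ((∑ i ∈ range (d + 1), |a i| : ℤ) : ℝ) := by
    rw [hT, ← hs1, Int.cast_abs]
  have hpt : ∀ i : Fin d, |v i - w i| ≤ |a (i.val + 1)| + |a i.val| := by
    intro i
    rw [(same_sign (hv2 i) (hw2 i)).1]
    have e1 : |v i| - |w i| = a (i.val + 1) - a i.val := by
      rw [ha]
      simp only [pz_succ]
      ring
    rw [e1]
    exact abs_sub _ _
  refine ⟨?_, ?_, ?_, ?_⟩
  · rw [hTabs]
    have e1 : l1 v w = ((∑ i : Fin d, |v i - w i| : ℤ) : ℝ) := by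
      unfold l1
      push_cast
      rfl
    rw [e1]
    have e2 : ∑ i : Fin d, |v i - w i| ≤ 2 * ∑ i ∈ range (d + 1), |a i| := by
      calc ∑ i : Fin d, |v i - w i| ≤ ∑ i : Fin d, (|a (i.val + 1)| + |a i.val|) :=
            Finset.sum_le_sum fun i _ => hpt i
        _ = ∑ i ∈ range d, (|a (i + 1)| + |a i|) :=
            Fin.sum_univ_eq_sum_range (fun i => |a (i + 1)| + |a i|) d
        _ = ∑ i ∈ range d, |a (i + 1)| + ∑ i ∈ range d, |a i| := Finset.sum_add_distrib
        _ = 2 * ∑ i ∈ range (d + 1), |a i| := by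
            have f1 := Finset.sum_range_succ (fun i => |a i|) d
            have f2 := Finset.sum_range_succ' (fun i => |a i|) d
            simp only [had, ha0, abs_zero, add_zero] at f1 f2
            linarith
    exact_mod_cast e2
  · rw [hTabs]
    have : ((∑ i ∈ range (d + 1), |a i| : ℤ) : ℝ) ≤ (((d : ℤ) - 1 : ℤ) : ℝ) := by
      exact_mod_cast hs2
    refine this.trans ?_
    push_cast
    exact le_refl _
  · have e1 : l1 v (-w) = ((∑ i : Fin d, |v i + w i| : ℤ) : ℝ) := by
      unfold l1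
      push_cast
      apply Finset.sum_congr rfl
      intro i _
      rw [Pi.neg_apply]
      push_cast
      rw [sub_neg_eq_add]
    have e2 : ∑ i : Fin d, |v i + w i| = 2 * (N : ℤ) := by
      rw [Finset.sum_congr rfl (fun i _ => (same_sign (hv2 i) (hw2 i)).2), Finset.sum_add_distrib,
        hv, hw]
      ring
    rw [e1, e2]
    push_cast
    ring
  · intro hneg
    have h1 := (((hW1 d N (-v)).2.2.2 x).1 hneg).2
    have h2 : ∀ i, v i = 0 := by
      intro i
      by_contra hne
      have h3 := hv2 i hne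
      have h4 := h1 i (by rw [Pi.neg_apply]; exact neg_ne_zero.2 hne)
      rw [Pi.neg_apply] at h4
      push_cast at h4
      linarith
    have h3 : ∑ i, |v i| = 0 := Finset.sum_eq_zero fun i _ => by rw [h2 i, abs_zero]
    rw [hv] at h3
    omega

end Pool.Agent.UTSP.BR
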