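import Pool.Agent.Work.MP_27a5a0_lc.BR.I_Ac
import Pool.Agent.Work.MP_27a5a0_lc.BR.I_Ak
import Pool.Agent.Work.MP_27a5a0_lc.BR.I_Al
import Pool.Agent.Work.MP_27a5a0_lc.BR.I_Cd
import Pool.Agent.Work.MP_27a5a0_lc.BR.I_Cy1
import Pool.Agent.Work.MP_27a5a0_lc.BR.I_Cy2
import Pool.Agent.Work.MP_27a5a0_lc.BR.I_Ex
import Pool.Agent.Work.MP_27a5a0_lc.BR.I_Fe
import Pool.Agent.Work.MP_27a5a0_lc.BR.I_Me
import Pool.Agent.Work.MP_27a5a0_lc.BR.I_So
import Pool.Agent.Work.MP_27a5a0_lc.BR.I_Sp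
import Pool.Agent.Work.MP_27a5a0_lc.BR.I_Tc
import Pool.Agent.Work.MP_27a5a0_lc.BR.I_Tri
import Pool.Agent.Work.MP_27a5a0_lc.BR.I_Ub
import Pool.Agent.Work.MP_27a5a0_lc.BR.I_Up
import Pool.Agent.Work.MP_27a5a0_lc.BR.I_Vm
import Pool.Agent.Work.MP_27a5a0_lc.BR.I_W1
import Pool.Agent.Work.MP_27a5a0_lc.BR.I_W2
import Pool.Agent.Work.MP_27a5a0_lc.BR.I_W3
import Pool.Agent.Work.MP_916cc8_co.Bd.B03

/-!
MP_27a5a0_lc, block BR: assembly of the two bounds for requests with at most `k` points.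
-/

set_option autoImplicit false

namespace Pool.Agent.UTSP.BR

open Finset Pool.Agent.UTSP

theorem l1_neg {d : ℕ} (v w : Fin d → ℤ) : l1 (-v) (-w) = l1 v w := by
  unfold l1
  refine Finset.sum_congr rfl (fun i _ => ?_)
  simp only [Pi.neg_apply, Int.cast_neg]
  rw [← abs_neg]
  congr 1
  ring

theorem l1_comm {d : ℕ} (v w : Fin d → ℤ) : l1 v w = l1 w v := by
  unfold l1
  exact Finset.sum_congr rfl (fun i _ => abs_sub_comm _ _)

theorem Ts_neg {d : ℕ} (v : Fin d → ℤ) : Ts (-v) = Ts v := by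
  unfold Ts pz
  simp only [Pi.neg_apply, abs_neg]

theorem bus : BUs := Pool.Agent.Work.MP_916cc8_co.BU_proof
  (Pool.Agent.Work.MP_916cc8_co.FANC_proof Pool.Agent.Work.MP_916cc8_co.CAN_proof
    Pool.Agent.Work.MP_916cc8_co.LOC_proof)

/-- Every master tour of the integer points of the `ℓ¹` sphere is bad on a set of `d` points. -/
theorem noTour (M n k N : ℕ) (hN : N = M * (n + 1)) (hM : 1 ≤ M) (hev : Even (n + 1))
    (hk : n + 1 ≤ k) :
    NoTourK k (fun v w : {v // v ∈ Vs (n + 1) N} => l1 v.1 w.1)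
      ((M : ℝ) / (M + 1) * (((n + 1) / 2 : ℕ) : ℝ)) := by
  classical
  intro τ hτ
  have hN1 : 1 ≤ N := by rw [hN]; exact Nat.mul_pos hM (Nat.succ_pos n)
  have hsum : ∀ v : {v // v ∈ Vs (n + 1) N}, ∑ i, |v.1 i| = (N : ℤ) := fun v =>
    (prVm (n + 1) N v.1).1 v.2
  have hnm : ∀ v : {v // v ∈ Vs (n + 1) N}, -v.1 ∈ Vs (n + 1) N := fun v =>
    (prVm (n + 1) N (-v.1)).2 (by simpa using hsum v)
  let ng : {v // v ∈ Vs (n + 1) N} → {v // v ∈ Vs (n + 1) N} := fun v => ⟨-v.1, hnm v⟩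
  have hng1 : ∀ v, ng (ng v) = v := fun v => Subtype.ext (neg_neg v.1)
  have hng2 : ∀ v, ng v ≠ v := by
    intro v h
    have h1 : -v.1 = v.1 := congrArg Subtype.val h
    have h2 : v.1 = 0 := by
      funext i
      have h3 := congrFun h1 i
      simp only [Pi.neg_apply] at h3
      simp only [Pi.zero_apply]
      omega
    have h4 := hsum v
    rw [h2] at h4
    simp at h4
    omega
  obtain ⟨x, u, hx, hlen, hpw, hch, hall⟩ := prTc bus (prAk prAl) {v // v ∈ Vs (n + 1) N} n ng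
    (fun v => wt N v.1) (fun v => @List.idxOf _ instBEqOfDecidableEq v τ) hng1 hng2
    (fun v => (prW1 (n + 1) N v.1).1) (fun v y => (prW1 (n + 1) N v.1).2.1 y)
    (fun v y => (prW1 (n + 1) N v.1).2.2.1 y)
    (fun y hy => by
      obtain ⟨v, hv1, hv2⟩ := prW2 prW1 (n + 1) N hN1 y hy
      exact ⟨⟨v, (prVm (n + 1) N v).2 hv1⟩, hv2⟩)
    (fun v y h => (prW3 prW1 (n + 1) N hN1 v.1 v.1 y (hsum v) (hsum v) h.1 h.1).2.2.2 h.2)
    (fun a b hab => by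
      have ha : a ∈ τ := by
        have : a ∈ τ.toFinset := by rw [hτ.2]; exact Finset.mem_univ a
        exact List.mem_toFinset.1 this
      exact (@List.idxOf_inj _ instBEqOfDecidableEq _ τ a b ha).1 hab)
  have hW3 : ∀ a b : {v // v ∈ Vs (n + 1) N}, 0 < wt N a.1 x → 0 < wt N b.1 x →
      l1 a.1 b.1 ≤ 2 * |((Ts a.1 : ℝ) - (Ts b.1 : ℝ))| ∧
      |((Ts a.1 : ℝ) - (Ts b.1 : ℝ))| ≤ ((n + 1 : ℕ) : ℝ) - 1 ∧
      l1 a.1 (-b.1) = 2 * N := fun a b ha hb => by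
    have h := prW3 prW1 (n + 1) N hN1 a.1 b.1 x (hsum a) (hsum b) ha hb
    exact ⟨h.1, h.2.1, h.2.2.1⟩
  have hdis : ∀ a : {v // v ∈ Vs (n + 1) N}, ¬ (0 < wt N a.1 x ∧ 0 < wt N (ng a).1 x) :=
    fun a h => (prW3 prW1 (n + 1) N hN1 a.1 a.1 x (hsum a) (hsum a) h.1 h.1).2.2.2 h.2
  have hPQ : ∀ a b : {v // v ∈ Vs (n + 1) N}, 0 < wt N a.1 x → 0 < wt N (ng b).1 x →
      l1 a.1 b.1 = 2 * N ∧ l1 b.1 a.1 = 2 * N := by
    intro a b ha hb
    have h := (hW3 a (ng b) ha hb).2.2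
    have h2 : -(ng b).1 = b.1 := neg_neg b.1
    rw [h2] at h
    exact ⟨h, by rw [l1_comm]; exact h⟩
  have hnd : u.Nodup := by
    refine List.Pairwise.imp ?_ hpw
    intro a b hab hne
    rw [hne] at hab
    exact lt_irrefl _ hab
  have hfil := prFe _ τ u hτ hpw
  have hune : u ≠ [] := by
    intro h
    rw [h] at hlen
    simp at hlen
  have hcyc := prAc {v // v ∈ Vs (n + 1) N} (fun v w => l1 v.1 w.1) (fun a => 0 < wt N a.1 x)
    (fun a => 0 < wt N (ng a).1 x) (2 * N) u hdis hPQ hch (by rw [hlen]; exact hev) hune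
  set A : Finset {v // v ∈ Vs (n + 1) N} := u.toFinset.filter (fun a => 0 < wt N a.1 x) with hA
  set B : Finset {v // v ∈ Vs (n + 1) N} :=
    u.toFinset.filter (fun a => 0 < wt N (ng a).1 x) with hB
  have hAB : A ∪ B = u.toFinset := by
    ext a
    rw [Finset.mem_union, hA, hB, Finset.mem_filter, Finset.mem_filter]
    constructor
    · rintro (h | h) <;> exact h.1
    · intro h
      rcases hall a (List.mem_toFinset.1 h) with h1 | h1
      · exact Or.inl ⟨h, h1⟩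
      · exact Or.inr ⟨h, h1⟩
  have hABd : Disjoint A B := by
    rw [Finset.disjoint_left]
    intro a h1 h2
    exact hdis a ⟨(Finset.mem_filter.1 h1).2, (Finset.mem_filter.1 h2).2⟩
  have hn1 : 1 ≤ n := by
    rcases Nat.eq_zero_or_pos n with h | h
    · subst h
      exact absurd hev (by decide)
    · exact h
  obtain ⟨a0, b0, l0, hul⟩ : ∃ a0 b0 l0, u = a0 :: b0 :: l0 := by
    rcases u with _ | ⟨a0, _ | ⟨b0, l0⟩⟩
    · exact absurd rfl hune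
    · simp at hlen; omega
    · exact ⟨a0, b0, l0, rfl⟩
  have ha0 : a0 ∈ u.toFinset := List.mem_toFinset.2 (by rw [hul]; simp)
  have hb0 : b0 ∈ u.toFinset := List.mem_toFinset.2 (by rw [hul]; simp)
  obtain ⟨hAne, hBne⟩ : A.Nonempty ∧ B.Nonempty := by
    rw [hul] at hch
    rcases (List.isChain_cons_cons.1 hch).1 with h | h
    · exact ⟨⟨a0, Finset.mem_filter.2 ⟨ha0, h.1⟩⟩, ⟨b0, Finset.mem_filter.2 ⟨hb0, h.2⟩⟩⟩
    · exact ⟨⟨b0, Finset.mem_filter.2 ⟨hb0, h.2⟩⟩, ⟨a0, Finset.mem_filter.2 ⟨ha0, h.1⟩⟩⟩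
  have hD0 : (0 : ℝ) ≤ ((n + 1 : ℕ) : ℝ) - 1 := by push_cast; linarith [(Nat.cast_nonneg n : (0 : ℝ) ≤ n)]
  obtain ⟨σ, hσ, hσw⟩ := prSo {v // v ∈ Vs (n + 1) N} (fun v w => l1 v.1 w.1) A (fun a => Ts a.1)
    (((n + 1 : ℕ) : ℝ) - 1) hD0
    (fun a ha b hb => (hW3 a b (Finset.mem_filter.1 ha).2 (Finset.mem_filter.1 hb).2).1)
    (fun a ha b hb => (hW3 a b (Finset.mem_filter.1 ha).2 (Finset.mem_filter.1 hb).2).2.1)
  obtain ⟨σ', hσ', hσw'⟩ := prSo {v // v ∈ Vs (n + 1) N} (fun v w => l1 v.1 w.1) B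
    (fun a => Ts a.1) (((n + 1 : ℕ) : ℝ) - 1) hD0
    (fun a ha b hb => by
      have h := (hW3 (ng a) (ng b) (Finset.mem_filter.1 ha).2 (Finset.mem_filter.1 hb).2).1
      have h1 : l1 (ng a).1 (ng b).1 = l1 a.1 b.1 := l1_neg a.1 b.1
      have h2 : Ts (ng a).1 = Ts a.1 := Ts_neg a.1
      have h3 : Ts (ng b).1 = Ts b.1 := Ts_neg b.1
      rw [h1, h2, h3] at h
      exact h)
    (fun a ha b hb => by
      have h := (hW3 (ng a) (ng b) (Finset.mem_filter.1 ha).2 (Finset.mem_filter.1 hb).2).2.1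
      have h2 : Ts (ng a).1 = Ts a.1 := Ts_neg a.1
      have h3 : Ts (ng b).1 = Ts b.1 := Ts_neg b.1
      rw [h2, h3] at h
      exact h)
  obtain ⟨ho, hoc⟩ := prSp {v // v ∈ Vs (n + 1) N} (fun v w => l1 v.1 w.1) A B σ σ' (2 * N)
    hAne hBne hABd hσ hσ' (fun a ha b hb => by
      have h := hPQ a b (Finset.mem_filter.1 ha).2 (Finset.mem_filter.1 hb).2
      exact ⟨h.1.le, h.2.le⟩)
  have hcard : u.toFinset.card = n + 1 := by rw [List.toFinset_card_of_nodup hnd, hlen]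
  refine ⟨u.toFinset, by omega, by omega, σ ++ σ', ?_, ?_⟩
  · rw [← hAB]; exact ho
  · rw [hfil, hcyc, hlen]
    obtain ⟨h, hh⟩ := hev
    have hdiv : (n + 1) / 2 = h := by omega
    rw [hdiv]
    have hhr : ((n + 1 : ℕ) : ℝ) = 2 * h := by rw [hh]; push_cast; ring
    have hh0 : (0 : ℝ) ≤ h := Nat.cast_nonneg h
    have hM0 : (0 : ℝ) < (M : ℝ) + 1 := by positivity
    have hMn : (0 : ℝ) ≤ (M : ℝ) := Nat.cast_nonneg M
    have hNr : (N : ℝ) = M * (2 * h) := by rw [hN, Nat.cast_mul, hhr]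
    have hle : cyc (fun v w : {v // v ∈ Vs (n + 1) N} => l1 v.1 w.1) (σ ++ σ')
        ≤ 8 * h * (M + 1) := by
      refine hoc.trans ?_
      rw [hhr] at hσw hσw'
      rw [hNr]
      nlinarith
    have hκ : (0 : ℝ) ≤ (M : ℝ) / (M + 1) * h := by positivity
    calc (M : ℝ) / (M + 1) * h * cyc (fun v w : {v // v ∈ Vs (n + 1) N} => l1 v.1 w.1) (σ ++ σ')
        ≤ (M : ℝ) / (M + 1) * h * (8 * h * (M + 1)) := mul_le_mul_of_nonneg_left hle hκ
      _ = ((n + 1 : ℕ) : ℝ) * (2 * N) := by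
        rw [hhr, hNr]
        field_simp
        ring

/-- The bounds for requests with at most `k` points. -/
theorem main : (∀ k n : ℕ, RK k n ≤ ((k / 2 : ℕ) : ENNReal)) ∧
    ∀ M k n : ℕ, 1 ≤ M → 2 ≤ k → (3 * 2 ^ M) ^ k ≤ n →
      ENNReal.ofReal ((M : ℝ) / (M + 1) * ((k / 2 : ℕ) : ℝ)) ≤ RK k n := by
  refine ⟨prUp (prUb prTri prCy1 prCy2), ?_⟩
  intro M k n hM hk hn
  obtain ⟨m, hm⟩ : ∃ m, 2 * (k / 2) = m + 1 := ⟨2 * (k / 2) - 1, by omega⟩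
  have hev : Even (m + 1) := ⟨k / 2, by omega⟩
  have hd : (m + 1) / 2 = k / 2 := by omega
  have hkm : m + 1 ≤ k := by omega
  have h1 := noTour M m k (M * (m + 1)) rfl hM hev hkm
  rw [hd] at h1
  refine prEx _ _ (prMe (m + 1) (M * (m + 1))) k _ (by positivity) h1 n ?_
  rw [Fintype.card_coe]
  have h2 := prCd M (m + 1)
  have h3 : (3 * 2 ^ M) ^ (m + 1) ≤ (3 * 2 ^ M) ^ k :=
    Nat.pow_le_pow_right (by positivity) hkm
  omega

end Pool.Agent.UTSP.BR
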