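import Pool.Agent.Work.MP_27a5a0_lc.Stmts

/-!
# MP_27a5a0_lc, block BR (captain helper64): requests with at most `k` points

THEOREM BR. `R_k(n)` is the best competitive ratio on `n`-point metric spaces if only subsets `S`
with `2 ≤ |S| ≤ k` are requested. (1) `R_k(n) ≤ ⌊k/2⌋`. (2) `R_k(n) ≥ (M/(M+1)) ⌊k/2⌋` for all
integers `M ≥ 1`, `k ≥ 2`, `n ≥ (3 * 2^M)^k`.

Every item: `theorem prX : StX` (with the quoted statements as hypotheses) in the file
`BR/I_X.lean`, which imports this file. The docstring of `StX` is its complete proof. Useful files of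
the landed theorem `LowerBound`: `T1.lean` (`prfFilter`), `T2.lean` (`prfSepCost`), `T4.lean`
(`walk_split`, `cyc_rot`), `T5.lean` (`exists_opt`), `E1.lean` (`ExtAux.*`, `prfExt`).
-/

set_option autoImplicit false

namespace Pool.Agent.UTSP.BR

open Finset Pool.Agent.UTSP Polynomial

/-! ### Definitions which occur in the final statement -/

/-- Competitive ratio of the master tour `τ` against requests with at most `k` points. -/
noncomputable def ratioK {X : Type*} [DecidableEq X] (k : ℕ) (δ : X → X → ℝ) (τ : List X) :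
    ENNReal :=
  ⨆ S : {S : Finset X // 2 ≤ S.card ∧ S.card ≤ k},
    ENNReal.ofReal (cyc δ (τ.filter (fun x => decide (x ∈ S.1))) / opt δ S.1)

/-- `R_k(n)`: the supremum over all metrics on an `n`-point set of the best ratio of a master tour
against requests with at most `k` points. -/
noncomputable def RK (k n : ℕ) : ENNReal :=
  ⨆ m : MetricSpace (Fin n), ⨅ τ : {τ : List (Fin n) // IsOrd Finset.univ τ},
    ratioK k (fun x y => m.dist x y) τ.1

/-! ### Part A: the upper bound -/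

/-- [Tri] EASY-MEDIUM. PROOF. Filter `σ` (`prfFilter` in T1.lean) by membership in `{x, y, z}`. If
`x, y, z` are different, the filtered list has no repetitions and exactly these three elements, so it
is one of the six orderings, and its cost is the left side (symmetry). If two of them coincide, the
left side is `2 δ a b` for two of them and the filtered list is `[a, b]` or `[b, a]`; if all three
coincide use `0 ≤ cyc δ σ` (`prfSepCost`, T2.lean). -/
def StTri : Prop := ∀ (X : Type) [DecidableEq X] (δ : X → X → ℝ), IsMet δ → ∀ σ : List X,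
  σ.Nodup → ∀ x ∈ σ, ∀ y ∈ σ, ∀ z ∈ σ, δ x y + δ y z + δ z x ≤ cyc δ σ

/-- [Cy1] EASY-MEDIUM. PROOF. `ZMod (m+1)` is `Fin (m+1)` by definition; `p i = l[i]`. Write
`l = a :: l'`; show `walk δ (a :: (l' ++ [b])) = ∑_(i < m) δ l[i] l[i+1] + δ l[m] b` by induction on
`l'`, for all `a`; `Fin.sum_univ_castSucc`. -/
def StCy1 : Prop := ∀ (X : Type) (δ : X → X → ℝ) (m : ℕ) (l : List X), l.length = m + 1 →
  ∃ p : ZMod (m + 1) → X, (∀ x, x ∈ l ↔ ∃ i, p i = x) ∧ (l.Nodup → Function.Injective p) ∧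
    cyc δ l = ∑ i : ZMod (m + 1), δ (p i) (p (i + 1))

/-- [Cy2] EASY-MEDIUM. PROOF. `l = List.ofFn p` (`ZMod (m+1)` is `Fin (m+1)` by definition), and the
formula as in Cy1 (`Cy1` may be used as a hypothesis: `List.ofFn p` has length `m+1`, and the `p` of
Cy1 must then be compared; or directly by induction, `Fin.sum_univ_succ`). -/
def StCy2 : Prop := ∀ (X : Type) (δ : X → X → ℝ) (m : ℕ) (p : ZMod (m + 1) → X),
  ∃ l : List X, l.length = m + 1 ∧ (∀ x, x ∈ l ↔ ∃ i, p i = x) ∧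
    (Function.Injective p → l.Nodup) ∧ cyc δ l = ∑ i : ZMod (m + 1), δ (p i) (p (i + 1))

/-- [Ub] MEDIUM (uses Tri, Cy1, Cy2). PROOF. Let `c = cyc δ σ`, `m = |l|`, `p` from Cy1 for `l`. By
Tri (`z = x`) `2 δ x y ≤ c` for `x, y ∈ l`, so `cyc δ l ≤ m c / 2`: this is the claim for `m` even.
Let `m` be odd. Tri gives `δ (p i) (p (i+1)) + δ (p (i+1)) (p (i+2)) ≤ c - δ (p (i+2)) (p i)`; the
sum over `i` (shift `i ↦ i + 1` in the second term): `2 cyc δ l ≤ m c - ∑ δ (p i) (p (i+2))`. The map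
`i ↦ p (2 i)` (`= p (i + i)`) is injective, because `2` is a unit modulo the odd number `m`, its range is
the range of `p`, and Cy2 gives an ordering `σ'` of the same set with
`cyc δ σ' = ∑ i, δ (p (2i)) (p (2i+2)) = ∑ i, δ (p i) (p (i+2))` (`Equiv.sum_comp` for `i ↦ 2 i`). As
`σ` is optimal, `c ≤ cyc δ σ'`, so `2 cyc δ l ≤ (m - 1) c`. -/
def StUb : Prop := StTri → StCy1 → StCy2 →
  ∀ (X : Type) [DecidableEq X] (δ : X → X → ℝ), IsMet δ → ∀ l σ : List X, l.Nodup →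
    IsOrd l.toFinset σ → 2 ≤ l.length →
    (∀ σ' : List X, IsOrd l.toFinset σ' → cyc δ σ ≤ cyc δ σ') →
    cyc δ l ≤ ((l.length / 2 : ℕ) : ℝ) * cyc δ σ

/-- [Up] EASY-MEDIUM (`hub` is the conclusion of Ub). PROOF. For a metric `m` on `Fin n` take
`τ = List.finRange n`. For `S` with `2 ≤ |S| ≤ k` the list `l = τ.filter (∈ S)` is an ordering of `S`,
`l.length = |S|`; an optimal ordering `σ` exists (`exists_opt`, T5.lean; `opt δ S = cyc δ σ`), and
`cyc δ l / opt ≤ |S| / 2 ≤ k / 2` (natural division; if `opt = 0` the quotient is `0`). -/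
def StUp : Prop :=
  (∀ (X : Type) [DecidableEq X] (δ : X → X → ℝ), IsMet δ → ∀ l σ : List X, l.Nodup →
    IsOrd l.toFinset σ → 2 ≤ l.length →
    (∀ σ' : List X, IsOrd l.toFinset σ' → cyc δ σ ≤ cyc δ σ') →
    cyc δ l ≤ ((l.length / 2 : ℕ) : ℝ) * cyc δ σ) →
  ∀ k n : ℕ, RK k n ≤ ((k / 2 : ℕ) : ENNReal)

/-! ### Part B: extension to all `n` -/

/-- Every master tour has ratio at least `κ` on some set with at most `k` points. -/
def NoTourK {X : Type*} [DecidableEq X] [Fintype X] (k : ℕ) (δ : X → X → ℝ) (κ : ℝ) : Prop :=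
  ∀ τ : List X, IsOrd (Finset.univ : Finset X) τ → ∃ S : Finset X, 2 ≤ S.card ∧ S.card ≤ k ∧
    ∃ σ : List X, IsOrd S σ ∧ κ * cyc δ σ ≤ cyc δ (τ.filter (fun x => decide (x ∈ S)))

/-- [Ex] EASY-MEDIUM. PROOF. Copy `E1.lean` (`ratio_ge` and `prfExt`): the only changes are that `S`
comes from `NoTourK` with `S.card ≤ k`, so that `S.image f` has at most `k` points, and that the
inequality is not strict. (Import E1.lean and use `ExtAux.dext`, `ExtAux.isMet_dext`, ....) -/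
def StEx : Prop := ∀ (X : Type) [Fintype X] [DecidableEq X] (δ : X → X → ℝ), IsMet δ →
  ∀ (k : ℕ) (κ : ℝ), 0 ≤ κ → NoTourK k δ κ → ∀ n : ℕ, Fintype.card X ≤ n →
    ENNReal.ofReal κ ≤ RK k n

/-! ### Part C: alternating chains -/

/-- The list `l` (decreasing) alternates: the signs of `c` at neighbours are opposite. -/
def Alt (c : ℕ → ℝ) (L : Finset ℕ) (l : List ℕ) : Prop :=
  l.IsChain (fun a b => b < a ∧ c a * c b < 0) ∧ ∀ a ∈ l, a ∈ L

/-- [Al] MEDIUM. PROOF. Induction on `m`, for all `L`. If `L = ∅` take `q = 0`. So let `L ≠ ∅`; then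
`m = 0` is impossible (a chain `[a]`). Step `m → m + 1` (no chain of length `m + 2`): let `a = max L`.
If all `c b`, `b ∈ L`, have the sign of `c a`, take `q = C (c a)`. Otherwise let `t` be the largest
element of `L` with `c t * c a < 0`, `t < a`, and `L' = {b ∈ L | b ≤ t}`. There is no chain `l` of
length `m + 1` in `L'`: let `e ≤ t` be its first element; if `c e * c a < 0` then `a :: l` and
otherwise (`e ≠ t`, so `e < t`) `t :: l` would be a chain of length `m + 2` in `L`. Let `q'` be the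
polynomial for `L'` and `q = q' * (C (t + 1/2) - X)`. For `b ∈ L'` the second factor is positive.
For `b ∈ L`, `b > t` (so `c b` has the sign of `c a`) and for real `y ≥ a`: `q' y` has the sign of
`c t` (third property for `L'`, whose maximum is `t`), the second factor is negative. -/
def StAl : Prop := ∀ (m : ℕ) (c : ℕ → ℝ) (L : Finset ℕ), (∀ a ∈ L, c a ≠ 0) →
  (¬ ∃ l : List ℕ, l.length = m + 1 ∧ Alt c L l) →
  ∃ q : ℝ[X], q.degree < (m : WithBot ℕ) ∧ (∀ a ∈ L, 0 < c a * q.eval (a : ℝ)) ∧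
    ∀ a ∈ L, (∀ b ∈ L, b ≤ a) → ∀ y : ℝ, (a : ℝ) ≤ y → 0 < c a * q.eval y

/-- [Ak] EASY (uses Al). PROOF. Otherwise `∑_(a ∈ L) c a * q.eval a > 0` for the `q` of Al, but it is
`∑_(j < m) q_j ∑_a c a * a ^ j = 0` (`Polynomial.eval_eq_sum_range'`). -/
def StAk : Prop := StAl → ∀ (m : ℕ) (c : ℕ → ℝ) (L : Finset ℕ), L.Nonempty →
  (∀ a ∈ L, c a ≠ 0) → (∀ j < m, ∑ a ∈ L, c a * (a : ℝ) ^ j = 0) →
  ∃ l : List ℕ, l.length = m + 1 ∧ Alt c L l

/-- Borsuk-Ulam; proved in the library (MP_916cc8_co). -/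
def BUs : Prop := ∀ (n : ℕ) (g : (Fin (n + 1) → ℝ) → (Fin n → ℝ)), Continuous g →
  (∀ x, g (-x) = -g x) → ∃ x, ‖x‖ = 1 ∧ g x = 0

/-- [Tc] MEDIUM (`hAk` is the conclusion of Ak). PROOF. `lab v = min (pos v) (pos (ng v))`,
`sg v = 1` if `pos v < pos (ng v)`, otherwise `-1`; `lab (ng v) = lab v`, `sg (ng v) = - sg v`.
`g_j x = ∑ v, lam v x * sg v * (lab v) ^ j`, `j : Fin n`, is continuous and odd (reindex by the
involution `ng`, `Equiv.sum_comp` with `Function.Involutive.toPerm`). BUs gives `x ≠ 0` with `g x = 0`. Let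
`C = {v | 0 < lam v x}`, not empty. `lab` is injective on `C` (`lab v = lab w` implies `w = v` or
`w = ng v` because `pos` is injective). Let `L = C.image lab`, and `c l = lam v x * sg v` for the
`v ∈ C` with label `l` (for instance `c l = ∑ v ∈ C with lab v = l, lam v x * sg v`); `c l ≠ 0` on `L`,
and `∑_(l ∈ L) c l * l ^ j = g_j x = 0` for `j < n`. `hAk` gives a decreasing alternating chain with
`n + 1` elements. For `l ∈ L` put `P l = v` if `sg v = 1` and `ng v` otherwise (`v ∈ C` the element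
with label `l`): `pos (P l) = l`; `0 < lam (P l) x` if `c l > 0`, `0 < lam (ng (P l)) x` if
`c l < 0`. `u` is the reversed list of the `P l`. -/
def StTc : Prop := BUs →
  (∀ (m : ℕ) (c : ℕ → ℝ) (L : Finset ℕ), L.Nonempty → (∀ a ∈ L, c a ≠ 0) →
    (∀ j < m, ∑ a ∈ L, c a * (a : ℝ) ^ j = 0) → ∃ l : List ℕ, l.length = m + 1 ∧ Alt c L l) →
  ∀ (X : Type) [Fintype X] [DecidableEq X] (n : ℕ) (ng : X → X)
    (lam : X → (Fin (n + 1) → ℝ) → ℝ) (pos : X → ℕ),
    (∀ v, ng (ng v) = v) → (∀ v, ng v ≠ v) → (∀ v, Continuous (lam v)) → (∀ v x, 0 ≤ lam v x) →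
    (∀ v x, lam (ng v) (-x) = lam v x) → (∀ x, x ≠ 0 → ∃ v, 0 < lam v x) →
    (∀ v x, ¬ (0 < lam v x ∧ 0 < lam (ng v) x)) → Function.Injective pos →
    ∃ (x : Fin (n + 1) → ℝ) (u : List X), x ≠ 0 ∧ u.length = n + 1 ∧
      u.Pairwise (fun a b => pos a < pos b) ∧
      u.IsChain (fun a b => (0 < lam a x ∧ 0 < lam (ng b) x) ∨
        (0 < lam (ng a) x ∧ 0 < lam b x)) ∧
      ∀ a ∈ u, 0 < lam a x ∨ 0 < lam (ng a) x

/-! ### Part D: the weights -/

/-- Partial sums of the absolute values (real vectors). -/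
noncomputable def ps {d : ℕ} (f : Fin d → ℝ) (i : ℕ) : ℝ :=
  ∑ j : Fin d, if j.val < i then |f j| else 0

/-- Partial sums of the absolute values (integer vectors). -/
noncomputable def pz {d : ℕ} (v : Fin d → ℤ) (i : ℕ) : ℤ := ∑ j : Fin d, if j.val < i then |v j| else 0

/-- The deviation of the partial sums of `v` from those of `x`. -/
noncomputable def Dd {d : ℕ} (N : ℕ) (v : Fin d → ℤ) (x : Fin d → ℝ) (i : ℕ) : ℝ :=
  ps x d * (pz v i : ℝ) - N * ps x i

/-- The weight of `v` at `x`. -/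
noncomputable def wt {d : ℕ} (N : ℕ) (v : Fin d → ℤ) (x : Fin d → ℝ) : ℝ :=
  (∏ i ∈ range (d + 1), ∏ j ∈ range (d + 1), max 0 (ps x d - (Dd N v x i - Dd N v x j))) *
    ∏ i : Fin d, (if v i = 0 then 1 else max 0 ((v i : ℝ) * x i))

/-- The sum of the partial sums. -/
noncomputable def Ts {d : ℕ} (v : Fin d → ℤ) : ℤ := ∑ i ∈ range (d + 1), pz v i

/-- The `ℓ¹` distance. -/
noncomputable def l1 {d : ℕ} (v w : Fin d → ℤ) : ℝ := ∑ i, |((v i : ℝ) - (w i : ℝ))|

/-- [W1] EASY-MEDIUM. PROOF. Continuity: finite sums and products of continuous functions (`fun_prop`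
after unfolding; `continuous_finset_prod`, `Continuous.max`). Positivity: a product of nonnegative
numbers is positive iff all factors are. -/
def StW1 : Prop := ∀ (d N : ℕ) (v : Fin d → ℤ), Continuous (wt N v) ∧
  (∀ x, 0 ≤ wt N v x) ∧ (∀ x, wt N (-v) (-x) = wt N v x) ∧
  ∀ x, 0 < wt N v x ↔ (∀ i ≤ d, ∀ j ≤ d, Dd N v x i - Dd N v x j < ps x d) ∧
    ∀ i, v i ≠ 0 → 0 < (v i : ℝ) * x i

/-- [W2] MEDIUM (uses W1). PROOF. `L = ps x d > 0`, `y i = N * ps x i / L`, nondecreasing in `i`, `y 0 = 0`,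
`y d = N`. Let `v i = sgn (x i) * (⌊y (i+1)⌋ - ⌊y i⌋)` (`sgn (x i) = 1` if `0 ≤ x i`, otherwise `-1`). Then
`|v i| = ⌊y (i+1)⌋ - ⌊y i⌋`, `pz v i = ⌊y i⌋` for `i ≤ d` (induction on `i`), `∑ |v i| = pz v d = N`, and
`Dd N v x i = L (⌊y i⌋ - y i) ∈ (-L, 0]`, so `Dd i - Dd j < L`. If `v i ≠ 0` then `y (i+1) ≠ y i`, so
`x i ≠ 0`, and `v i * x i > 0`. -/
def StW2 : Prop := StW1 → ∀ (d N : ℕ), 1 ≤ N → ∀ x : Fin d → ℝ, x ≠ 0 →
  ∃ v : Fin d → ℤ, ∑ i, |v i| = (N : ℤ) ∧ 0 < wt N v x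

/-- [W3] MEDIUM (uses W1). PROOF. `L = ps x d`, `a i = pz v i - pz w i`, `a 0 = 0`, `a d = N - N = 0`
(`pz v d = ∑ |v i|`). `Dd v i - Dd w i = L * a i`; adding `Dd v i - Dd v j < L` and
`Dd w j - Dd w i < L` gives `L (a i - a j) < 2 L`, so `a i - a j ≤ 1` for `i, j ≤ d` (`L > 0` because
`0 < L` follows from `i = j = 0` in W1). With `i = 0` or `j = 0`: `|a i| ≤ 1`, and all `a i ≥ 0` or all
`a i ≤ 0`. So `|Ts v - Ts w| = |∑_(i ≤ d) a i| = ∑_(i ≤ d) |a i| ≤ d - 1` (only `0 < i < d` count). `v i`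
and `w i` have the sign of `x i` if they are not `0`, so `|v i - w i| = | |v i| - |w i| | =
|a (i+1) - a i| ≤ |a (i+1)| + |a i|` and `|v i + w i| = |v i| + |w i|`. The sums over `i`:
`l1 v w ≤ 2 ∑ |a i|`, `l1 v (-w) = 2 N`. Last statement: if `v` and `-v` have positive weight at `x`,
then `v = 0`, but `∑ |v i| = N ≥ 1`. (`d ≥ 1` because of `N ≥ 1`.) -/
def StW3 : Prop := StW1 → ∀ (d N : ℕ), 1 ≤ N → ∀ (v w : Fin d → ℤ) (x : Fin d → ℝ),
  ∑ i, |v i| = (N : ℤ) → ∑ i, |w i| = (N : ℤ) → 0 < wt N v x → 0 < wt N w x →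
  l1 v w ≤ 2 * |((Ts v : ℝ) - (Ts w : ℝ))| ∧ |((Ts v : ℝ) - (Ts w : ℝ))| ≤ (d : ℝ) - 1 ∧
    l1 v (-w) = 2 * N ∧ ¬ 0 < wt N (-v) x

/-- The points with `ℓ¹` norm `N`. -/
noncomputable def Vs (d N : ℕ) : Finset (Fin d → ℤ) :=
  (Fintype.piFinset fun _ => Finset.Icc (-(N : ℤ)) N).filter (fun v => ∑ i, |v i| = (N : ℤ))

/-- [Vm] EASY. PROOF. If `∑ |v i| = N` then `|v i| ≤ N`. -/
def StVm : Prop := ∀ (d N : ℕ) (v : Fin d → ℤ), v ∈ Vs d N ↔ ∑ i, |v i| = (N : ℤ)

/-- [Cd] EASY-MEDIUM. PROOF. `∑_(v in the box) ∏ i, (1/2)^|v i| = (∑_(j = -N..N) (1/2)^|j|)^d ≤ 3^d`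
(`Finset.prod_univ_sum`), and every `v ∈ Vs d N` contributes `(1/2)^N` (`Int.natAbs`), so
`|Vs| ≤ 3^d 2^N = (3 * 2^M)^d` for `N = M d`. -/
def StCd : Prop := ∀ M d : ℕ, (Vs d (M * d)).card ≤ (3 * 2 ^ M) ^ d

/-- [Me] EASY. PROOF. Sums of absolute values; `l1 v w = 0` implies `v = w`. -/
def StMe : Prop := ∀ d N : ℕ, IsMet (fun v w : {v // v ∈ Vs d N} => l1 v.1 w.1)

/-! ### Part E: costs -/

/-- [So] EASY-MEDIUM. PROOF. Sort `A.toList` by `T` (`List.insertionSort` or `List.mergeSort`): a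
permutation with `T` nondecreasing. By induction for such a list `a :: l` with last element `b`:
`walk ≤ 2 (T b - T a) ≤ 2 D`. (`A = ∅`: the walk is `0`.) -/
def StSo : Prop := ∀ (X : Type) [DecidableEq X] (δ : X → X → ℝ) (A : Finset X) (T : X → ℤ)
  (D : ℝ), 0 ≤ D → (∀ a ∈ A, ∀ b ∈ A, δ a b ≤ 2 * |((T a : ℝ) - (T b : ℝ))|) →
  (∀ a ∈ A, ∀ b ∈ A, |((T a : ℝ) - (T b : ℝ))| ≤ D) →
  ∃ σ : List X, IsOrd A σ ∧ walk δ σ ≤ 2 * D

/-- [Sp] EASY-MEDIUM. PROOF. The list `σ ++ σ'`: its closed walk is `walk σ + δ (last σ) (head σ') +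
walk σ' + δ (last σ') (head σ)` (`walk_split` in T4.lean, or induction). -/
def StSp : Prop := ∀ (X : Type) [DecidableEq X] (δ : X → X → ℝ) (A B : Finset X)
  (σ σ' : List X) (W : ℝ), A.Nonempty → B.Nonempty → Disjoint A B → IsOrd A σ → IsOrd B σ' →
  (∀ a ∈ A, ∀ b ∈ B, δ a b ≤ W ∧ δ b a ≤ W) →
  IsOrd (A ∪ B) (σ ++ σ') ∧ cyc δ (σ ++ σ') ≤ walk δ σ + walk δ σ' + 2 * W

/-- [Fe] EASY-MEDIUM. PROOF. Both lists have no repetitions, the same elements (all elements of `u`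
are in `τ`), and are sorted by the position in `τ` (the filtered list is a sublist of `τ`; `τ` is
sorted by `idxOf`). -/
def StFe : Prop := ∀ (X : Type) [Fintype X] [DecidableEq X] (τ u : List X),
  IsOrd (Finset.univ : Finset X) τ → u.Pairwise (fun a b => τ.idxOf a < τ.idxOf b) →
  τ.filter (fun x => decide (x ∈ u.toFinset)) = u

/-- [Ac] EASY-MEDIUM. PROOF. Show by induction on the list: for an alternating list `a :: l` with
`P a` and every `b` with `P b` the sum `walk δ (a :: (l ++ [b]))` is `(l.length + 1) * W` if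
`l.length` is odd (the last element has property `Q`); the same with `P` and `Q` exchanged; `cyc` is
the case `b = a`. -/
def StAc : Prop := ∀ (X : Type) (δ : X → X → ℝ) (P Q : X → Prop) (W : ℝ) (u : List X),
  (∀ a, ¬ (P a ∧ Q a)) → (∀ a b, P a → Q b → δ a b = W ∧ δ b a = W) →
  u.IsChain (fun a b => (P a ∧ Q b) ∨ (Q a ∧ P b)) → Even u.length → u ≠ [] →
  cyc δ u = u.length * W

end Pool.Agent.UTSP.BR
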